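import Pool.Agent.H10R2.PL.AsmD
import Pool.Agent.H10R2.PL.SWA

/-!
Completion of the power-law Anderson project `Pool.Agent.H10R2.PL` (helper10): the finite volume
bounds give trial functions at almost every energy, almost surely.
-/

namespace Pool.Agent.U319.PLE

open MeasureTheory ProbabilityTheory Matrix Set Filter H10PL

variable {d : ℕ} {T0 : (Fin d → ℤ) → (Fin d → ℤ) → ℝ} {κ : (Fin d → ℤ) → ℝ} {ρ0 b : ℝ}

/-- the profile takes comparable values on arbitrarily large sets `S`, and the common size `β`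
of these values satisfies `β |S| → ∞` -/
def Big (κ : (Fin d → ℤ) → ℝ) (B : ℝ) : Prop :=
  ∀ A : ℝ, ∃ (S : Finset (Fin d → ℤ)) (β : ℝ), 0 < β ∧ (0 : Fin d → ℤ) ∉ S ∧ S.Nonempty ∧
    (∀ z ∈ S, β ≤ |κ z| ∧ |κ z| ≤ B * β) ∧ A ≤ S.card ∧ A ≤ β * S.card

theorem aC_nonneg : 0 ≤ aC b κ := by
  unfold aC
  have : 0 ≤ ∑' z, κ z ^ 2 := tsum_nonneg fun z => sq_nonneg _
  positivity

theorem tail_prod (v : NNReal) (x : Fin d → ℤ) {K δ W2 : ℝ} (hK : 0 < K)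
    (hW : (PV d v) {V | W2 < |V x|} ≤ ENNReal.ofReal (δ / (8 * K))) :
    ((volume.restrict (Icc (-K) K)).prod ((PV d v).prod (Ps d)))
      {p | W2 < |p.2.1 x|} ≤ ENNReal.ofReal (δ / 4) := by
  have hset : {p : ℝ × (((Fin d → ℤ) → ℝ) × (Sym2 (Fin d → ℤ) → Bool)) | W2 < |p.2.1 x|} =
      (univ : Set ℝ) ×ˢ ({V : (Fin d → ℤ) → ℝ | W2 < |V x|} ×ˢ (univ : Set (Sym2 (Fin d → ℤ) → Bool))) := by
    ext p
    simp
  rw [hset, Measure.prod_prod, Measure.prod_prod, measure_univ (μ := Ps d), mul_one,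
    Measure.restrict_apply_univ, Real.volume_Icc]
  calc ENNReal.ofReal (K - -K) * (PV d v) {V | W2 < |V x|}
      ≤ ENNReal.ofReal (K - -K) * ENNReal.ofReal (δ / (8 * K)) := by gcongr
    _ = ENNReal.ofReal (δ / 4) := by
        rw [← ENNReal.ofReal_mul (by linarith)]
        congr 1
        field_simp
        ring

/-- choice of `c1` -/
theorem num_c1 {B K G π δ c1 card η : ℝ} (hK : 0 < K) (hG : 0 < G) (hπ : 0 < π) (hδ : 0 < δ)
    (hcard : 0 < card) (hc1 : c1 = (16 + 64 * B ^ 2) * K * 4 / (G * π * δ)) (hη : η = c1 / card) :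
    (16 + 64 * B ^ 2) * K / (G * π * card * η) = δ / 4 := by
  have h1 : 0 < (16 + 64 * B ^ 2) := by positivity
  have h2 : G * π * card * η = (16 + 64 * B ^ 2) * K * 4 / δ := by
    rw [hη, hc1]
    field_simp
  rw [h2]
  field_simp

/-- the threshold -/
theorem num_thr {M' c1 W W2 G π card β η : ℝ} (hG : 0 < G) (hπ : 0 < π) (hcard : 0 < card)
    (hW : 0 < W) (hW2 : 0 ≤ W2) (hη : η = c1 / card)
    (h1 : 16 * M' * c1 * (W2 + 8 * W) ^ 2 / (G * π) ≤ (β * card) ^ 2) :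
    4 * M' * η ≤ β ^ 2 * (G * π * card / 2) / (2 * (W2 + 8 * W) ^ 2) := by
  have hden : 0 < 2 * (W2 + 8 * W) ^ 2 := by positivity
  rw [le_div_iff₀ hden, hη]
  rw [div_le_iff₀ (by positivity)] at h1
  rw [show 4 * M' * (c1 / card) * (2 * (W2 + 8 * W) ^ 2) =
    (16 * M' * c1 * (W2 + 8 * W) ^ 2) / (2 * card) by field_simp; ring]
  rw [div_le_iff₀ (by positivity)]
  refine h1.trans (le_of_eq ?_)
  ring

/-- the choice of `r` -/
theorem num_r {ρ T η sM r : ℝ} (hρ : 0 ≤ ρ) (hT : 0 ≤ T) (hη : 0 < η) (hs : 0 < sM)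
    (hr : r = 2 * ρ * T / (η ^ 2 * sM) + 1) : ρ / r * T * (1 / η) ≤ η * sM / 2 := by
  have hr0 : 0 < r := by rw [hr]; positivity
  have h1 : ρ / r * T * (1 / η) = (ρ * T / η) / r := by
    field_simp
  rw [h1, div_le_iff₀ hr0, hr]
  have h2 : η * sM / 2 * (2 * ρ * T / (η ^ 2 * sM) + 1) = ρ * T / η + η * sM / 2 := by
    field_simp
  rw [h2]
  have : 0 < η * sM / 2 := by positivity
  linarith

theorem num_tail {K η c δ t : ℝ} (hK : 0 < K) (hη : 0 < η) (hc : 0 < c)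
    (ht : t ≤ η ^ 2 * c * δ / (8 * K)) : 2 * K * (t * (1 / η ^ 2) / c) ≤ δ / 4 := by
  have h2 : t * (1 / η ^ 2) / c ≤ (η ^ 2 * c * δ / (8 * K)) * (1 / η ^ 2) / c := by gcongr
  calc 2 * K * (t * (1 / η ^ 2) / c)
      ≤ 2 * K * ((η ^ 2 * c * δ / (8 * K)) * (1 / η ^ 2) / c) := by gcongr
    _ = δ / 4 := by field_simp; ring

theorem num_W {CK δ W : ℝ} (hδ : 0 < δ) (hW : 0 < W) (h : 36 * CK / δ ≤ W) :
    9 * CK / W ≤ δ / 4 := by
  rw [div_le_iff₀ hW]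
  rw [div_le_iff₀ hδ] at h
  linarith

theorem null_infN (h : Adm T0 κ ρ0 b) {B : ℝ} (hB : Big κ B) (v : NNReal) (hv : v ≠ 0)
    (x : Fin d → ℤ) {K : ℝ} (hK : 0 < K) (M : ℝ) :
    ((volume.restrict (Icc (-K) K)).prod ((PV d v).prod (Ps d)))
      {p | ¬ InfN T0 κ p.2.2 p.2.1 p.1 x M} = 0 := by
  classical
  rw [← nonpos_iff_eq_zero]
  refine ENNReal.le_of_forall_pos_le_add fun ε hε _ => ?_
  rw [zero_add]
  obtain ⟨δ, hδdef⟩ : ∃ δ : ℝ, δ = (ε : ℝ) := ⟨_, rfl⟩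
  have hδ : 0 < δ := by rw [hδdef]; exact_mod_cast hε
  have hpi := Real.pi_pos
  obtain ⟨CK, hCK⟩ : ∃ CK : ℝ, CK = Ck K (aC b κ) := ⟨_, rfl⟩
  obtain ⟨W, hWdef⟩ : ∃ W : ℝ, W = max (2 * (K + 1)) (36 * CK / δ) := ⟨_, rfl⟩
  have hW1 : 2 * (K + 1) ≤ W := by rw [hWdef]; exact le_max_left _ _
  have hW0 : 0 < W := by linarith
  have hW2' : 36 * CK / δ ≤ W := by rw [hWdef]; exact le_max_right _ _
  have hG0 : 0 < gaussianPDFReal 0 v W := gaussianPDFReal_pos 0 v W hv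
  obtain ⟨G, hG⟩ : ∃ G : ℝ, G = gaussianPDFReal 0 v W := ⟨_, rfl⟩
  rw [← hG] at hG0
  obtain ⟨W2, hW20, hW2⟩ := V_tail v x (δ := δ / (8 * K)) (by positivity)
  obtain ⟨M', hM'⟩ : ∃ M' : ℝ, M' = max M 1 := ⟨_, rfl⟩
  have hMM : M ≤ M' := by rw [hM']; exact le_max_left _ _
  have hM'1 : 1 ≤ M' := by rw [hM']; exact le_max_right _ _
  have hM'0 : 0 < M' := by linarith
  obtain ⟨c1, hc1⟩ : ∃ c1 : ℝ, c1 = (16 + 64 * B ^ 2) * K * 4 / (G * Real.pi * δ) := ⟨_, rfl⟩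
  have hc10 : 0 < c1 := by rw [hc1]; positivity
  obtain ⟨Q, hQ⟩ : ∃ Q : ℝ, Q = 16 * M' * c1 * (W2 + 8 * W) ^ 2 / (G * Real.pi) := ⟨_, rfl⟩
  obtain ⟨S, β, hβ, h0S, hSn, hκS, hA1, hA2⟩ := hB (max (max c1 Q) 1)
  have hSc : 0 < (S.card : ℝ) := by exact_mod_cast Finset.card_pos.2 hSn
  obtain ⟨η, hη⟩ : ∃ η : ℝ, η = c1 / S.card := ⟨_, rfl⟩
  have hη0 : 0 < η := by rw [hη]; positivity
  have hη1 : η ≤ 1 := by
    rw [hη, div_le_one hSc]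
    exact le_trans (le_trans (le_max_left _ _) (le_max_left _ _)) hA1
  have hsM : 0 < Real.sqrt M' := Real.sqrt_pos.2 hM'0
  obtain ⟨c, hc⟩ : ∃ c : ℝ, c = (η * Real.sqrt M' / 2) ^ 2 := ⟨_, rfl⟩
  have hc0 : 0 < c := by rw [hc]; positivity
  obtain ⟨ρ1, hρ1⟩ := tail_small h (δ := η ^ 2 * c * δ / (8 * K)) (by positivity)
  obtain ⟨ρ, hρdef⟩ : ∃ ρ : ℝ, ρ = max (max ρ0 0) (max (∑ z ∈ S, ‖z‖) ρ1) := ⟨_, rfl⟩
  have hρ0 : ρ0 ≤ ρ := by rw [hρdef]; exact le_trans (le_max_left _ _) (le_max_left _ _)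
  have hρ00 : 0 ≤ ρ := by rw [hρdef]; exact le_trans (le_max_right ρ0 0) (le_max_left _ _)
  have hρS : ∀ z ∈ S, ‖z‖ ≤ ρ := fun z hz => by
    rw [hρdef]
    exact le_trans (Finset.single_le_sum (f := fun z : Fin d → ℤ => ‖z‖)
      (fun y _ => norm_nonneg y) hz) (le_trans (le_max_left _ _) (le_max_right _ _))
  have hρρ1 : ρ1 ≤ ρ := by rw [hρdef]; exact le_trans (le_max_right _ _) (le_max_right _ _)
  obtain ⟨T, hT0, hT⟩ := row_abs h ρ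
  obtain ⟨r, hr⟩ : ∃ r : ℝ, r = 2 * ρ * T / (η ^ 2 * Real.sqrt M') + 1 := ⟨_, rfl⟩
  have hr0 : 0 < r := by rw [hr]; positivity
  obtain ⟨Λ, hΛdef⟩ : ∃ Λ : Finset (Fin d → ℤ), Λ = (ball_finite x (r + ρ)).toFinset := ⟨_, rfl⟩
  have hΛ : ∀ y, ‖y - x‖ ≤ r + ρ → y ∈ Λ := fun y hy => by
    rw [hΛdef, Set.Finite.mem_toFinset]
    exact hy
  have hx : x ∈ Λ := hΛ x (by rw [sub_self, norm_zero]; linarith)
  have hSΛ : ∀ z ∈ S, x - z ∈ Λ := fun z hz => hΛ _ (by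
    have h1 := hρS z hz
    have h2 : ‖x - z - x‖ = ‖z‖ := by
      rw [show x - z - x = -z by abel, norm_neg]
    rw [h2]
    linarith)
  -- the three bad events
  obtain ⟨thr, hthr⟩ : ∃ thr : ℝ, thr =
    β ^ 2 * (G * Real.pi * S.card / 2) / (2 * (W2 + 8 * W) ^ 2) := ⟨_, rfl⟩
  have hthr1 : 4 * M' * η ≤ thr := by
    rw [hthr]
    refine num_thr hG0 hpi hSc hW0 hW20 hη ?_
    have h2 : max (max c1 Q) 1 ≤ β * S.card := hA2
    have h3 : (1 : ℝ) ≤ β * S.card := le_trans (le_max_right _ _) h2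
    have h4 : Q ≤ β * S.card := le_trans (le_trans (le_max_right _ _) (le_max_left _ _)) h2
    rw [← hQ]
    nlinarith
  have b3 := tail_prod v x hK hW2
  have b2 := long_lattice h v hρ0 hη0 hr0 Λ x hx hK hc0
  have b1 := fv_lattice h v hv Λ S x hx h0S hρS hSΛ hSn hβ hκS hK hW1 hη0 hη1 hW20
  rw [← hG, ← hthr, ← hCK] at b1
  have hsub : {p : ℝ × (((Fin d → ℤ) → ℝ) × (Sym2 (Fin d → ℤ) → Bool)) |
      ¬ InfN T0 κ p.2.2 p.2.1 p.1 x M} ⊆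
      ({p | |p.2.1 x| ≤ W2 ∧
        Pm (Am T0 κ ρ Λ p.2.2) (fun i : Λ => p.2.1 i) p.1 η ⟨x, hx⟩ ⟨x, hx⟩ < thr} ∪
       {p | ¬ (∑' y, (∑ w ∈ Λ, (Kf T0 κ p.2.2 y w - Kr T0 κ ρ p.2.2 y w) *
        ff T0 κ ρ η r Λ x hx p.2.2 p.2.1 p.1 w) ^ 2) ≤ c}) ∪ {p | W2 < |p.2.1 x|} := by
    intro p hp
    by_contra hcon
    have g3 : |p.2.1 x| ≤ W2 := by
      by_contra hc3
      exact hcon (Or.inr (not_le.1 hc3))
    have g2 : (∑' y, (∑ w ∈ Λ, (Kf T0 κ p.2.2 y w - Kr T0 κ ρ p.2.2 y w) *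
        ff T0 κ ρ η r Λ x hx p.2.2 p.2.1 p.1 w) ^ 2) ≤ c := by
      by_contra hc2
      exact hcon (Or.inl (Or.inr hc2))
    have g1 : thr ≤ Pm (Am T0 κ ρ Λ p.2.2) (fun i : Λ => p.2.1 i) p.1 η ⟨x, hx⟩ ⟨x, hx⟩ := by
      by_contra hc1'
      exact hcon (Or.inl (Or.inl ⟨g3, not_le.1 hc1'⟩))
    apply hp
    rw [hc] at g2
    exact infN_of h p.2.2 p.2.1 p.1 x (M := M) (M' := M') hρ0 hρ00 hr0 hη0 Λ hΛ hx hT0
      (fun y => hT Λ p.2.2 y) hMM hM'0 (hthr1.trans g1) (num_r hρ00 hT0 hη0 hsM hr) g2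
  refine (measure_mono hsub).trans ?_
  refine (measure_union_le _ _).trans ?_
  have e1 : 9 * CK / W +
        (16 + 64 * B ^ 2) * K / (G * Real.pi * S.card * η) ≤ δ / 4 + δ / 4 :=
    add_le_add (num_W hδ hW0 hW2') (le_of_eq (num_c1 hK hG0 hpi hδ hSc hc1 hη))
  have e2 : 2 * K * ((∑' y : Fin d → ℤ, if ρ < ‖y‖ then κ y ^ 2 else 0) *
        (1 / η ^ 2) / c) ≤ δ / 4 := num_tail hK hη0 hc0 (hρ1 ρ hρρ1)
  calc _ ≤ (ENNReal.ofReal (δ / 4 + δ / 4) + ENNReal.ofReal (δ / 4)) + ENNReal.ofReal (δ / 4) := by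
        refine add_le_add ((measure_union_le _ _).trans (add_le_add ?_ ?_)) b3
        · exact b1.trans (ENNReal.ofReal_le_ofReal e1)
        · exact b2.trans (ENNReal.ofReal_le_ofReal e2)
    _ = ENNReal.ofReal δ := by
        rw [← ENNReal.ofReal_add (by positivity) (by positivity),
          ← ENNReal.ofReal_add (by positivity) (by positivity)]
        congr 1
        ring
    _ = (ε : ENNReal) := by rw [hδdef, ENNReal.ofReal_coe_nnreal]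

end Pool.Agent.U319.PLE
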