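import Pool.Agent.U319.PL.E1

/-!
The set of the samples with an eigenfunction that does not vanish at `x` is a countable union of
closed sets.
-/

namespace Pool.Agent.U319.PLE

open MeasureTheory ProbabilityTheory Matrix Set Filter H10PL Topology

variable {d : ℕ} {T0 : (Fin d → ℤ) → (Fin d → ℤ) → ℝ} {κ : (Fin d → ℤ) → ℝ} {ρ0 b : ℝ}

/-- a bound of the squares of the kernel which does not depend on the signs -/
noncomputable def kk (T0 : (Fin d → ℤ) → (Fin d → ℤ) → ℝ) (κ : (Fin d → ℤ) → ℝ)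
    (y w : Fin d → ℤ) : ℝ := (|T0 y w| + |κ (y - w)|) ^ 2

theorem kk_nonneg (y w : Fin d → ℤ) : 0 ≤ kk T0 κ y w := sq_nonneg _

theorem kk_summable (h : Adm T0 κ ρ0 b) (y : Fin d → ℤ) : Summable fun w => kk T0 κ y w := by
  have h1 := (Kf_sq_summable h (fun _ => true) y).add (Kf_sq_summable h (fun _ => false) y)
  refine Summable.of_nonneg_of_le (fun w => kk_nonneg y w) (fun w => ?_) h1
  simp only [kk, Kf, sg]
  have e1 : (|T0 y w| + |κ (y - w)|) ^ 2 ≤ 2 * T0 y w ^ 2 + 2 * κ (y - w) ^ 2 := by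
    nlinarith [sq_abs (T0 y w), sq_abs (κ (y - w)), sq_nonneg (|T0 y w| - |κ (y - w)|)]
  refine e1.trans (le_of_eq ?_)
  simp
  ring

theorem Kf_le_kk (s : Sym2 (Fin d → ℤ) → Bool) (y w : Fin d → ℤ) :
    Kf T0 κ s y w ^ 2 ≤ kk T0 κ y w := by
  unfold kk Kf
  rw [← sq_abs]
  refine pow_le_pow_left₀ (abs_nonneg _) ?_ 2
  refine (abs_add_le _ _).trans ?_
  rw [abs_mul, asm_abs_sg, one_mul]

open Classical in
/-- tail -/
noncomputable def tau (T0 : (Fin d → ℤ) → (Fin d → ℤ) → ℝ) (κ : (Fin d → ℤ) → ℝ)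
    (y : Fin d → ℤ) (F : Finset (Fin d → ℤ)) : ℝ := ∑' w, if w ∈ F then 0 else kk T0 κ y w

theorem tau_tendsto (y : Fin d → ℤ) :
    Tendsto (fun F : Finset (Fin d → ℤ) => tau T0 κ y F) atTop (𝓝 0) := by
  classical
  have h1 := tendsto_tsum_compl_atTop_zero (fun w => kk T0 κ y w)
  refine h1.congr fun F => ?_
  unfold tau
  have h2 := tsum_subtype ({w | w ∉ F} : Set (Fin d → ℤ)) (fun w => kk T0 κ y w)
  refine Eq.trans h2 (tsum_congr fun w => ?_)
  by_cases hw : w ∈ F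
  · simp [hw]
  · simp [hw]

theorem tau_summable (h : Adm T0 κ ρ0 b) (y : Fin d → ℤ) (F : Finset (Fin d → ℤ)) [DecidableEq (Fin d → ℤ)] :
    Summable fun w => if w ∈ F then 0 else kk T0 κ y w := by
  refine Summable.of_nonneg_of_le (fun w => ?_) (fun w => ?_) (kk_summable h y)
  · split_ifs
    · exact le_rfl
    · exact kk_nonneg y w
  · split_ifs
    · exact kk_nonneg y w
    · exact le_rfl

/-- the closed form of the eigenvalue equation -/
theorem eig_iff (h : Adm T0 κ ρ0 b) (s : Sym2 (Fin d → ℤ) → Bool) (V : (Fin d → ℤ) → ℝ) (E : ℝ)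
    (ψ : (Fin d → ℤ) → ℝ) {n : ℝ} (hs : Summable fun y => ψ y ^ 2) (hn : ∑' y, ψ y ^ 2 ≤ n) :
    IsEig T0 κ s V E ψ ↔ ∀ (y : Fin d → ℤ) (F : Finset (Fin d → ℤ)),
      (∑ w ∈ F, Kf T0 κ s y w * ψ w + (V y - E) * ψ y) ^ 2 ≤ tau T0 κ y F * n := by
  classical
  have hn0 : 0 ≤ n := le_trans (tsum_nonneg fun y => sq_nonneg _) hn
  have hsum : ∀ y, Summable fun w => Kf T0 κ s y w * ψ w := fun y =>
    (cs_tsum (Kf_sq_summable h s y) hs).1
  constructor
  · rintro ⟨_, heq⟩ y F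
    have h1 := heq y
    have h2 : ∑ w ∈ F, Kf T0 κ s y w * ψ w + (V y - E) * ψ y =
        -∑' w, (if w ∈ F then 0 else Kf T0 κ s y w) * ψ w := by
      have h3 : ∑' w, Kf T0 κ s y w * ψ w = ∑ w ∈ F, Kf T0 κ s y w * ψ w +
          ∑' w, (if w ∈ F then 0 else Kf T0 κ s y w) * ψ w := by
        have h4 : ∑ w ∈ F, Kf T0 κ s y w * ψ w =
            ∑' w, if w ∈ F then Kf T0 κ s y w * ψ w else 0 := by
          rw [tsum_eq_sum (s := F) (fun w hw => by simp [hw])]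
          exact Finset.sum_congr rfl fun w hw => by simp [hw]
        rw [h4, ← Summable.tsum_add]
        · refine tsum_congr fun w => ?_
          split_ifs <;> simp
        · exact summable_of_ne_finset_zero (s := F) (fun w hw => by simp [hw])
        · refine (hsum y).sub (f := fun w => Kf T0 κ s y w * ψ w)
            (g := fun w => if w ∈ F then Kf T0 κ s y w * ψ w else 0)
            (summable_of_ne_finset_zero (s := F) (fun w hw => by simp [hw])) |>.congr fun w => ?_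
          split_ifs <;> simp
      linarith
    rw [h2, neg_sq]
    have h5 : Summable fun w => (if w ∈ F then 0 else Kf T0 κ s y w) ^ 2 := by
      refine Summable.of_nonneg_of_le (fun w => sq_nonneg _) (fun w => ?_) (Kf_sq_summable h s y)
      split_ifs
      · rw [zero_pow two_ne_zero]; exact sq_nonneg _
      · exact le_rfl
    refine (cs_tsum h5 hs).2.trans ?_
    have h6 : ∑' w, (if w ∈ F then 0 else Kf T0 κ s y w) ^ 2 ≤ tau T0 κ y F := by
      unfold tau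
      refine h5.tsum_le_tsum (fun w => ?_) ?_
      · split_ifs
        · simp
        · exact Kf_le_kk s y w
      · exact tau_summable h y F
    exact mul_le_mul h6 hn (tsum_nonneg fun y => sq_nonneg _)
      (tsum_nonneg fun w => by split_ifs; exacts [le_rfl, kk_nonneg y w])
  · intro hF
    refine ⟨hs, fun y => ?_⟩
    have h1 : Tendsto (fun F : Finset (Fin d → ℤ) =>
        (∑ w ∈ F, Kf T0 κ s y w * ψ w + (V y - E) * ψ y) ^ 2) atTop
        (𝓝 ((∑' w, Kf T0 κ s y w * ψ w + (V y - E) * ψ y) ^ 2)) :=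
      ((hsum y).hasSum.add_const _).pow 2
    have h2 : Tendsto (fun F : Finset (Fin d → ℤ) => tau T0 κ y F * n) atTop (𝓝 (0 * n)) :=
      (tau_tendsto y).mul_const n
    rw [zero_mul] at h2
    have h3 := le_of_tendsto_of_tendsto' h1 h2 (fun F => hF y F)
    have h4 : ∑' w, Kf T0 κ s y w * ψ w + (V y - E) * ψ y = 0 := by
      have := le_antisymm h3 (sq_nonneg _)
      exact pow_eq_zero_iff two_ne_zero |>.1 this
    linarith

/-- samples with an eigenfunction, normalised at `x`, of norm square and energy at most `n` -/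
def Nn (T0 : (Fin d → ℤ) → (Fin d → ℤ) → ℝ) (κ : (Fin d → ℤ) → ℝ) (x : Fin d → ℤ) (n : ℕ) :
    Set (((Fin d → ℤ) → ℝ) × (Sym2 (Fin d → ℤ) → Bool)) :=
  {p | ∃ E ψ, |E| ≤ (n : ℝ) ∧ IsEig T0 κ p.2 p.1 E ψ ∧ ψ x = 1 ∧ ∑' y, ψ y ^ 2 ≤ (n : ℝ)}

/-- the compact set of the energies and the vectors -/
def Cn (x : Fin d → ℤ) (n : ℕ) : Set (ℝ × ((Fin d → ℤ) → ℝ)) :=
  {q | |q.1| ≤ (n : ℝ) ∧ q.2 x = 1 ∧ ∀ F : Finset (Fin d → ℤ), ∑ y ∈ F, q.2 y ^ 2 ≤ (n : ℝ)}

theorem Cn_compact (x : Fin d → ℤ) (n : ℕ) : IsCompact (Cn x n) := by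
  have h1 : IsCompact ((Icc (-(n : ℝ)) (n : ℝ)) ×ˢ
      (Set.pi univ fun _ : Fin d → ℤ => Icc (-((n : ℝ) + 1)) ((n : ℝ) + 1))) :=
    isCompact_Icc.prod (isCompact_univ_pi fun _ => isCompact_Icc)
  refine h1.of_isClosed_subset ?_ ?_
  · have hCn : Cn x n = {q : ℝ × ((Fin d → ℤ) → ℝ) | |q.1| ≤ (n : ℝ)} ∩
        ({q | q.2 x = 1} ∩ {q | ∀ F : Finset (Fin d → ℤ), ∑ y ∈ F, q.2 y ^ 2 ≤ (n : ℝ)}) := rfl
    rw [hCn]
    refine IsClosed.inter ?_ (IsClosed.inter ?_ ?_)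
    · exact isClosed_le (continuous_fst.abs) continuous_const
    · exact isClosed_eq ((continuous_apply x).comp continuous_snd) continuous_const
    · have : {q : ℝ × ((Fin d → ℤ) → ℝ) | ∀ F : Finset (Fin d → ℤ), ∑ y ∈ F, q.2 y ^ 2 ≤ (n : ℝ)} =
          ⋂ F : Finset (Fin d → ℤ), {q | ∑ y ∈ F, q.2 y ^ 2 ≤ (n : ℝ)} := by
        ext q; simp
      rw [this]
      refine isClosed_iInter fun F => isClosed_le ?_ continuous_const
      exact continuous_finsetSum _ fun y _ => ((continuous_apply y).comp continuous_snd).pow 2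
  · rintro ⟨E, ψ⟩ ⟨h2, _, h4⟩
    refine ⟨abs_le.1 h2, fun y _ => ?_⟩
    have h5 : ψ y ^ 2 ≤ n := by simpa using h4 {y}
    have h6 : (0 : ℝ) ≤ n := Nat.cast_nonneg n
    have h7 : |ψ y| ≤ (n : ℝ) + 1 := abs_le_of_sq_le_sq (by nlinarith) (by linarith)
    exact abs_le.1 h7

theorem Nn_closed (h : Adm T0 κ ρ0 b) (x : Fin d → ℤ) (n : ℕ) : IsClosed (Nn T0 κ x n) := by
  classical
  haveI : CompactSpace (Cn x n) := isCompact_iff_compactSpace.1 (Cn_compact x n)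
  have himg : Nn T0 κ x n = Prod.fst '' {z : (((Fin d → ℤ) → ℝ) × (Sym2 (Fin d → ℤ) → Bool)) × Cn x n |
      ∀ (y : Fin d → ℤ) (F : Finset (Fin d → ℤ)),
      (∑ w ∈ F, Kf T0 κ z.1.2 y w * z.2.1.2 w + (z.1.1 y - z.2.1.1) * z.2.1.2 y) ^ 2 ≤
        tau T0 κ y F * (n : ℝ)} := by
    ext ⟨V, s⟩
    constructor
    · rintro ⟨E, ψ, h1, h2, h3, h4⟩
      have h5 : (E, ψ) ∈ Cn x n := ⟨h1, h3, fun F =>
        (h2.1.sum_le_tsum F (fun y _ => sq_nonneg _)).trans h4⟩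
      exact ⟨((V, s), ⟨(E, ψ), h5⟩), (eig_iff h s V E ψ h2.1 h4).1 h2, rfl⟩
    · rintro ⟨⟨⟨V', s'⟩, ⟨⟨E, ψ⟩, h1, h3, h4⟩⟩, h5, h6⟩
      obtain ⟨rfl, rfl⟩ := Prod.mk.inj h6
      have hs : Summable fun y => ψ y ^ 2 :=
        summable_of_sum_le (fun y => sq_nonneg _) h4
      have hn : ∑' y, ψ y ^ 2 ≤ n := hs.tsum_le_of_sum_le h4
      exact ⟨E, ψ, h1, (eig_iff h s' V' E ψ hs hn).2 h5, h3, hn⟩
  rw [himg]
  refine isClosedMap_fst_of_compactSpace _ ?_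
  have : {z : (((Fin d → ℤ) → ℝ) × (Sym2 (Fin d → ℤ) → Bool)) × Cn x n |
      ∀ (y : Fin d → ℤ) (F : Finset (Fin d → ℤ)),
      (∑ w ∈ F, Kf T0 κ z.1.2 y w * z.2.1.2 w + (z.1.1 y - z.2.1.1) * z.2.1.2 y) ^ 2 ≤
        tau T0 κ y F * (n : ℝ)} = ⋂ (y : Fin d → ℤ), ⋂ (F : Finset (Fin d → ℤ)),
      {z | (∑ w ∈ F, Kf T0 κ z.1.2 y w * z.2.1.2 w + (z.1.1 y - z.2.1.1) * z.2.1.2 y) ^ 2 ≤
        tau T0 κ y F * (n : ℝ)} := by
    ext z; simp
  rw [this]
  refine isClosed_iInter fun y => isClosed_iInter fun F => isClosed_le ?_ continuous_const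
  have c1 : ∀ w : Fin d → ℤ, Continuous fun z : (((Fin d → ℤ) → ℝ) × (Sym2 (Fin d → ℤ) → Bool)) ×
      Cn x n => z.2.1.2 w := fun w =>
    (continuous_apply w).comp (continuous_snd.comp (continuous_subtype_val.comp continuous_snd))
  have c2 : ∀ w : Fin d → ℤ, Continuous fun z : (((Fin d → ℤ) → ℝ) × (Sym2 (Fin d → ℤ) → Bool)) ×
      Cn x n => Kf T0 κ z.1.2 y w := by
    intro w
    unfold Kf
    refine continuous_const.add (Continuous.mul ?_ continuous_const)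
    exact (continuous_of_discreteTopology (f := sg)).comp
      ((continuous_apply _).comp (continuous_snd.comp continuous_fst))
  have c3 : Continuous fun z : (((Fin d → ℤ) → ℝ) × (Sym2 (Fin d → ℤ) → Bool)) ×
      Cn x n => z.1.1 y := (continuous_apply y).comp (continuous_fst.comp continuous_fst)
  have c4 : Continuous fun z : (((Fin d → ℤ) → ℝ) × (Sym2 (Fin d → ℤ) → Bool)) ×
      Cn x n => z.2.1.1 := continuous_fst.comp (continuous_subtype_val.comp continuous_snd)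
  exact ((continuous_finsetSum _ fun w _ => (c2 w).mul (c1 w)).add ((c3.sub c4).mul (c1 y))).pow 2

/-- samples with an eigenfunction that does not vanish at `x` -/
def Nx (T0 : (Fin d → ℤ) → (Fin d → ℤ) → ℝ) (κ : (Fin d → ℤ) → ℝ) (x : Fin d → ℤ) :
    Set (((Fin d → ℤ) → ℝ) × (Sym2 (Fin d → ℤ) → Bool)) :=
  {p | ∃ E ψ, IsEig T0 κ p.2 p.1 E ψ ∧ ψ x ≠ 0}

theorem IsEig.smul' {s : Sym2 (Fin d → ℤ) → Bool} {V : (Fin d → ℤ) → ℝ} {E : ℝ}
    {ψ : (Fin d → ℤ) → ℝ} (hψ : IsEig T0 κ s V E ψ) (c : ℝ) :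
    IsEig T0 κ s V E fun y => c * ψ y := by
  obtain ⟨h1, h2⟩ := hψ
  refine ⟨?_, fun y => ?_⟩
  · refine (h1.mul_left (c ^ 2)).congr fun y => ?_
    ring
  · have h3 := h2 y
    have h4 : ∑' w, Kf T0 κ s y w * (c * ψ w) = c * ∑' w, Kf T0 κ s y w * ψ w := by
      rw [← tsum_mul_left]
      exact tsum_congr fun w => by ring
    rw [h4]
    linear_combination c * h3

theorem Nx_eq (x : Fin d → ℤ) : Nx T0 κ x = ⋃ n : ℕ, Nn T0 κ x n := by
  ext ⟨V, s⟩
  simp only [Set.mem_iUnion]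
  constructor
  · rintro ⟨E, ψ, h1, h2⟩
    obtain ⟨n, hn⟩ := exists_nat_ge (max |E| (∑' y, ((ψ x)⁻¹ * ψ y) ^ 2))
    exact ⟨n, E, fun y => (ψ x)⁻¹ * ψ y, (le_max_left _ _).trans hn, IsEig.smul' h1 _,
      inv_mul_cancel₀ h2, (le_max_right _ _).trans hn⟩
  · rintro ⟨n, E, ψ, _, h1, h2, _⟩
    exact ⟨E, ψ, h1, by rw [h2]; exact one_ne_zero⟩

theorem Nx_meas (h : Adm T0 κ ρ0 b) (x : Fin d → ℤ) : MeasurableSet (Nx T0 κ x) := by
  rw [Nx_eq]
  exact MeasurableSet.iUnion fun n => (Nn_closed h x n).measurableSet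

end Pool.Agent.U319.PLE
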