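import Pool.Agent.U319.PL.E2

/-!
Assembly: almost surely there are no eigenfunctions.
-/

namespace Pool.Agent.U319.PLE

open MeasureTheory ProbabilityTheory Matrix Set Filter H10PL Topology

variable {d : ℕ} {T0 : (Fin d → ℤ) → (Fin d → ℤ) → ℝ} {κ : (Fin d → ℤ) → ℝ} {ρ0 b : ℝ}

theorem slice_zero (h : Adm T0 κ ρ0 b) (s : Sym2 (Fin d → ℤ) → Bool) (hc : CutOK T0 κ s)
    (v : NNReal) (hv : v ≠ 0) (x : Fin d → ℤ)
    (hG : ∀ᵐ V ∂(PV d v), ∀ᵐ E : ℝ, ∀ M : ℕ, InfN T0 κ s V E x M) :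
    (PV d v) {V | ∃ E ψ, IsEig T0 κ s V E ψ ∧ ψ x ≠ 0} = 0 := by
  classical
  have hN : MeasurableSet {V : (Fin d → ℤ) → ℝ | ∃ E ψ, IsEig T0 κ s V E ψ ∧ ψ x ≠ 0} :=
    (measurable_prodMk_right (y := s)) (Nx_meas h x)
  have hmp := update_mp (d := d) v x
  rw [← hmp.measure_preimage hN.nullMeasurableSet]
  rw [Measure.measure_prod_null (hmp.measurable hN)]
  have h1 := Measure.ae_ae_of_ae_prod (hmp.quasiMeasurePreserving.ae hG)
  filter_upwards [h1] with V hV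
  have hV' : ∀ᵐ t : ℝ, ∀ᵐ E : ℝ, ∀ M : ℕ, InfN T0 κ s (Function.update V x t) E x M :=
    (gaussianReal_absolutelyContinuous' 0 hv).ae_le hV
  obtain ⟨t1, ht1⟩ := hV'.exists
  have hne : ∀ᵐ t : ℝ, t ≠ t1 := by
    rw [ae_iff]
    simp
  obtain ⟨t2, ht2, ht12⟩ := (hV'.and hne).exists
  have hE : ∀ᵐ E : ℝ, ¬ ∃ t ψ, IsEig T0 κ s (Function.update V x t) E ψ ∧ ψ x ≠ 0 := by
    filter_upwards [ht1, ht2] with E e1 e2
    rintro ⟨t, ψ, hψ, hx⟩
    have g1 := kill h s (Function.update V x t1) E x e1 t ψ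
      (by rwa [Function.update_idem]) hx
    have g2 := kill h s (Function.update V x t2) E x e2 t ψ
      (by rwa [Function.update_idem]) hx
    rw [Function.update_self] at g1 g2
    exact ht12 (g2.symm.trans g1)
  have hfin := null_slice h s hc V x hE
  have hfin' : ∀ᵐ t ∂(gaussianReal 0 v),
      ¬ ∃ E ψ, IsEig T0 κ s (Function.update V x t) E ψ ∧ ψ x ≠ 0 :=
    (gaussianReal_absolutelyContinuous 0 hv).ae_le hfin
  rw [ae_iff] at hfin'
  show (gaussianReal 0 v) (Prod.mk V ⁻¹' ((fun p : ((Fin d → ℤ) → ℝ) × ℝ =>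
    Function.update p.1 x p.2) ⁻¹' {V | ∃ E ψ, IsEig T0 κ s V E ψ ∧ ψ x ≠ 0})) = 0
  refine measure_mono_null ?_ hfin'
  intro t ht
  simp only [Set.mem_ofPred_eq, not_not]
  exact ht

theorem good_ae (h : Adm T0 κ ρ0 b) {B : ℝ} (hB : Big κ B) (v : NNReal) (hv : v ≠ 0)
    (x : Fin d → ℤ) : ∀ᵐ s ∂(Ps d), ∀ᵐ V ∂(PV d v), ∀ᵐ E : ℝ, ∀ M : ℕ, InfN T0 κ s V E x M := by
  have h1 : ∀ k : ℕ, ∀ᵐ s ∂(Ps d), ∀ᵐ V ∂(PV d v),
      ∀ᵐ E : ℝ, E ∈ Icc (-((k : ℝ) + 1)) ((k : ℝ) + 1) → ∀ M : ℕ, InfN T0 κ s V E x M := by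
    intro k
    have hK : (0 : ℝ) < (k : ℝ) + 1 := by positivity
    have h2 : ∀ᵐ q ∂((volume.restrict (Icc (-((k : ℝ) + 1)) ((k : ℝ) + 1))).prod
        ((PV d v).prod (Ps d))), ∀ M : ℕ, InfN T0 κ q.2.2 q.2.1 q.1 x M := by
      rw [ae_all_iff]
      intro M
      rw [ae_iff]
      exact null_infN h hB v hv x hK M
    -- put `E` last
    have h3 := (Measure.measurePreserving_swap
      (μ := (PV d v).prod (Ps d)) (ν := (volume.restrict (Icc (-((k : ℝ) + 1)) ((k : ℝ) + 1)) :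
        Measure ℝ))).quasiMeasurePreserving.ae h2
    have h4 := Measure.ae_ae_of_ae_prod h3
    have h5 := (Measure.measurePreserving_swap
      (μ := Ps d) (ν := PV d v)).quasiMeasurePreserving.ae h4
    have h6 := Measure.ae_ae_of_ae_prod h5
    filter_upwards [h6] with s hs
    filter_upwards [hs] with V hV
    exact (ae_restrict_iff' measurableSet_Icc).1 hV
  rw [← ae_all_iff] at h1
  filter_upwards [h1] with s hs
  rw [← ae_all_iff] at hs
  filter_upwards [hs] with V hV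
  rw [← ae_all_iff] at hV
  filter_upwards [hV] with E hE
  obtain ⟨k, hk⟩ := exists_nat_ge |E|
  refine hE k ?_
  have := abs_le.1 hk
  constructor <;> linarith [this.1, this.2]

/-- **Almost surely there are no eigenfunctions.** -/
theorem noEig (h : Adm T0 κ ρ0 b) {B : ℝ} (hB : Big κ B) (v : NNReal) (hv : v ≠ 0)
    (hc : ∀ᵐ s ∂(Ps d), CutOK T0 κ s) :
    ∀ᵐ p ∂((PV d v).prod (Ps d)), ∀ E ψ, IsEig T0 κ p.2 p.1 E ψ → ψ = 0 := by
  have h1 : ∀ x : Fin d → ℤ, ∀ᵐ p ∂((PV d v).prod (Ps d)), p ∉ Nx T0 κ x := by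
    intro x
    rw [ae_iff]
    simp only [not_not]
    change ((PV d v).prod (Ps d)) (Nx T0 κ x) = 0
    rw [Measure.prod_apply_symm (Nx_meas h x), lintegral_eq_zero_iff
      (measurable_measure_prodMk_right (Nx_meas h x))]
    filter_upwards [hc, good_ae h hB v hv x] with s hs1 hs2
    exact slice_zero h s hs1 v hv x hs2
  rw [← ae_all_iff] at h1
  filter_upwards [h1] with p hp E ψ hψ
  funext x
  by_contra hx
  exact hp x ⟨E, ψ, hψ, hx⟩

end Pool.Agent.U319.PLE
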