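import Mathlib

/-!
Rademacher matrix series: moments of the trace (noncommutative Khintchine inequality), after
Tropp's elementary proof; the linear algebra is adapted from `Pool.Agent.H999R5.Inj`.
-/

namespace Pool.Agent.U319.PLE

open Matrix Finset

section LinAlg

variable {ι : Type*} [Fintype ι] [DecidableEq ι]

/-- orthogonal diagonalisation of a symmetric matrix -/
theorem diagS (X : Matrix ι ι ℝ) (hX : X.IsSymm) :
    ∃ (V : Matrix ι ι ℝ) (l : ι → ℝ), V * V.transpose = 1 ∧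
      V.transpose * V = 1 ∧ ∀ k : ℕ, X ^ k = V * diagonal (fun i => l i ^ k) * V.transpose := by
  have hH : X.IsHermitian := by
    rw [Matrix.IsHermitian, Matrix.conjTranspose_eq_transpose_of_trivial]
    exact hX
  set U := hH.eigenvectorUnitary with hU
  have h1 : (U : Matrix ι ι ℝ) * (U : Matrix ι ι ℝ).transpose = 1 := by
    have := Matrix.mem_unitaryGroup_iff.1 U.2
    rw [Matrix.star_eq_conjTranspose, Matrix.conjTranspose_eq_transpose_of_trivial] at this
    exact this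
  have h2 : (U : Matrix ι ι ℝ).transpose * (U : Matrix ι ι ℝ) = 1 := by
    have := Matrix.mem_unitaryGroup_iff'.1 U.2
    rw [Matrix.star_eq_conjTranspose, Matrix.conjTranspose_eq_transpose_of_trivial] at this
    exact this
  have h3 : X = (U : Matrix ι ι ℝ) * diagonal (fun i => hH.eigenvalues i) *
      (U : Matrix ι ι ℝ).transpose := by
    have h := hH.spectral_theorem
    rw [Unitary.conjStarAlgAut_apply] at h
    rw [Matrix.star_eq_conjTranspose, Matrix.conjTranspose_eq_transpose_of_trivial] at h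
    exact h
  refine ⟨U, hH.eigenvalues, h1, h2, ?_⟩
  intro k
  induction k with
  | zero =>
    simp only [pow_zero]
    have : (diagonal fun _ : ι => (1 : ℝ)) = 1 := Matrix.diagonal_one
    rw [this, Matrix.mul_one, h1]
  | succ k ih =>
    have h4 : (diagonal fun i => hH.eigenvalues i ^ (k + 1)) =
        (diagonal fun i => hH.eigenvalues i ^ k) * (diagonal fun i => hH.eigenvalues i) := by
      rw [Matrix.diagonal_mul_diagonal]
      congr 1
    calc X ^ (k + 1) = X ^ k * X := pow_succ X k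
      _ = ((U : Matrix ι ι ℝ) * (diagonal fun i => hH.eigenvalues i ^ k) *
            (U : Matrix ι ι ℝ).transpose) *
          ((U : Matrix ι ι ℝ) * diagonal (fun i => hH.eigenvalues i) *
            (U : Matrix ι ι ℝ).transpose) := by rw [ih, ← h3]
      _ = (U : Matrix ι ι ℝ) * (diagonal fun i => hH.eigenvalues i ^ k) *
            ((U : Matrix ι ι ℝ).transpose * (U : Matrix ι ι ℝ)) *
            diagonal (fun i => hH.eigenvalues i) *
            (U : Matrix ι ι ℝ).transpose := by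
          simp only [Matrix.mul_assoc]
      _ = _ := by
          rw [h2, Matrix.mul_one, h4]
          simp only [Matrix.mul_assoc]

theorem tr4' (B : Matrix ι ι ℝ) (f g : ι → ℝ) :
    (B * diagonal f * B.transpose * diagonal g).trace = ∑ k, ∑ l, B k l ^ 2 * (f l * g k) := by
  unfold Matrix.trace
  refine Finset.sum_congr rfl fun k _ => ?_
  rw [Matrix.diag_apply, Matrix.mul_diagonal, Matrix.mul_apply, Finset.sum_mul]
  refine Finset.sum_congr rfl fun l _ => ?_
  rw [Matrix.mul_diagonal, Matrix.transpose_apply]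
  ring

theorem scal' (a b : ℝ) (q r j : ℕ) (h : q + r = 2 * j) :
    a ^ q * b ^ r + a ^ r * b ^ q ≤ a ^ (2 * j) + b ^ (2 * j) := by
  have h1 : a ^ q * b ^ r ≤ |a| ^ q * |b| ^ r := by
    rw [← abs_pow, ← abs_pow, ← abs_mul]
    exact le_abs_self _
  have h2 : a ^ r * b ^ q ≤ |a| ^ r * |b| ^ q := by
    rw [← abs_pow, ← abs_pow, ← abs_mul]
    exact le_abs_self _
  have h3 : a ^ (2 * j) = |a| ^ q * |a| ^ r := by
    rw [← pow_add, h, pow_mul, pow_mul, sq_abs]
  have h4 : b ^ (2 * j) = |b| ^ q * |b| ^ r := by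
    rw [← pow_add, h, pow_mul, pow_mul, sq_abs]
  have h5 : 0 ≤ (|a| ^ q - |b| ^ q) * (|a| ^ r - |b| ^ r) := by
    rcases le_total |a| |b| with hab | hab
    · exact mul_nonneg_of_nonpos_of_nonpos
        (sub_nonpos.2 (pow_le_pow_left₀ (abs_nonneg a) hab q))
        (sub_nonpos.2 (pow_le_pow_left₀ (abs_nonneg a) hab r))
    · exact mul_nonneg (sub_nonneg.2 (pow_le_pow_left₀ (abs_nonneg b) hab q))
        (sub_nonneg.2 (pow_le_pow_left₀ (abs_nonneg b) hab r))
  rw [h3, h4]
  nlinarith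

/-- Heinz type trace inequality for two matrices -/
theorem heinz2 (A W Z : Matrix ι ι ℝ) (hA : A.IsSymm) (hW : W.IsSymm) (hZ : Z.IsSymm)
    (q r j : ℕ) (h : q + r = 2 * j) :
    (A * W ^ q * A * Z ^ r).trace + (A * W ^ r * A * Z ^ q).trace ≤
      (A * A * W ^ (2 * j)).trace + (A * A * Z ^ (2 * j)).trace := by
  obtain ⟨U, a, u1, u2, hU⟩ := diagS W hW
  obtain ⟨V, c, v1, v2, hV⟩ := diagS Z hZ
  set B := V.transpose * A * U with hB
  have hBt : B.transpose = U.transpose * A * V := by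
    rw [hB, Matrix.transpose_mul, Matrix.transpose_mul, Matrix.transpose_transpose, hA.eq,
      Matrix.mul_assoc]
  have e1 : ∀ q r : ℕ, (A * W ^ q * A * Z ^ r).trace =
      ∑ k, ∑ l, B k l ^ 2 * (a l ^ q * c k ^ r) := by
    intro q r
    rw [← tr4' B (fun l => a l ^ q) (fun k => c k ^ r), hBt, hU q, hV r]
    calc (A * (U * diagonal (fun i => a i ^ q) * U.transpose) * A *
          (V * diagonal (fun i => c i ^ r) * V.transpose)).trace
        = ((A * U * diagonal (fun i => a i ^ q) * U.transpose * A * V *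
            diagonal (fun i => c i ^ r)) * V.transpose).trace := by
          simp only [Matrix.mul_assoc]
      _ = (V.transpose * (A * U * diagonal (fun i => a i ^ q) * U.transpose * A * V *
            diagonal (fun i => c i ^ r))).trace := Matrix.trace_mul_comm _ _
      _ = _ := by
          rw [hB]
          simp only [Matrix.mul_assoc]
  have e2 : (A * A * W ^ (2 * j)).trace = ∑ k, ∑ l, B k l ^ 2 * (a l ^ (2 * j) * c k ^ 0) := by
    rw [← e1 (2 * j) 0, pow_zero, Matrix.mul_one, Matrix.trace_mul_comm (A * W ^ (2 * j)) A,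
      ← Matrix.mul_assoc]
  have e3 : (A * A * Z ^ (2 * j)).trace = ∑ k, ∑ l, B k l ^ 2 * (a l ^ 0 * c k ^ (2 * j)) := by
    rw [← e1 0 (2 * j), pow_zero, Matrix.mul_one]
  rw [e1, e1, e2, e3, ← Finset.sum_add_distrib, ← Finset.sum_add_distrib]
  refine Finset.sum_le_sum fun k _ => ?_
  rw [← Finset.sum_add_distrib, ← Finset.sum_add_distrib]
  refine Finset.sum_le_sum fun l _ => ?_
  have h3 := mul_le_mul_of_nonneg_left (scal' (a l) (c k) q r j h) (sq_nonneg (B k l))
  rw [pow_zero, pow_zero]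
  linarith

theorem tele (W Z D : Matrix ι ι ℝ) (hD : W - Z = D) (m : ℕ) :
    W ^ m - Z ^ m = ∑ q ∈ range m, W ^ q * D * Z ^ (m - 1 - q) := by
  induction m with
  | zero => simp
  | succ m ih =>
    rw [Finset.sum_range_succ]
    have h1 : ∀ q ∈ range m, W ^ q * D * Z ^ (m + 1 - 1 - q) =
        (W ^ q * D * Z ^ (m - 1 - q)) * Z := by
      intro q hq
      have hq' := Finset.mem_range.1 hq
      rw [Matrix.mul_assoc (W ^ q * D), ← pow_succ]
      congr 2
      omega
    rw [Finset.sum_congr rfl h1, ← Finset.sum_mul, ← ih]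
    have h2 : m + 1 - 1 - m = 0 := by omega
    rw [h2, pow_zero, Matrix.mul_one, ← hD, pow_succ, pow_succ]
    noncomm_ring

/-- one sign -/
theorem one_sign (A Y : Matrix ι ι ℝ) (hA : A.IsSymm) (hY : Y.IsSymm) (p : ℕ) :
    (A * (Y + A) ^ (2 * p + 1)).trace - (A * (Y - A) ^ (2 * p + 1)).trace ≤
      (2 * p + 1) * ((A * A * (Y + A) ^ (2 * p)).trace + (A * A * (Y - A) ^ (2 * p)).trace) := by
  set W := Y + A with hW
  set Z := Y - A with hZ
  have hWs : W.IsSymm := hY.add hA
  have hZs : Z.IsSymm := hY.sub hA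
  have hWZ : W - Z = 2 • A := by
    rw [hW, hZ, two_smul]
    abel
  rw [← Matrix.trace_sub, ← Matrix.mul_sub, tele W Z (2 • A) hWZ, Matrix.mul_sum, Matrix.trace_sum]
  have h1 : ∀ q ∈ range (2 * p + 1), (A * (W ^ q * 2 • A * Z ^ (2 * p + 1 - 1 - q))).trace =
      2 * (A * W ^ q * A * Z ^ (2 * p - q)).trace := by
    intro q _
    have : A * (W ^ q * 2 • A * Z ^ (2 * p + 1 - 1 - q)) =
        (2 : ℝ) • (A * W ^ q * A * Z ^ (2 * p - q)) := by
      have e : 2 * p + 1 - 1 - q = 2 * p - q := by omega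
      rw [e, two_smul, two_smul]
      simp only [Matrix.mul_add, Matrix.add_mul, Matrix.mul_assoc]
    rw [this, Matrix.trace_smul, smul_eq_mul]
  rw [Finset.sum_congr rfl h1]
  have h2 : ∑ q ∈ range (2 * p + 1), (A * W ^ q * A * Z ^ (2 * p - q)).trace =
      ∑ q ∈ range (2 * p + 1), (A * W ^ (2 * p - q) * A * Z ^ q).trace := by
    rw [← Finset.sum_range_reflect]
    refine Finset.sum_congr rfl fun q hq => ?_
    have hq' := Finset.mem_range.1 hq
    have e1 : 2 * p + 1 - 1 - q = 2 * p - q := by omega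
    have e2 : 2 * p - (2 * p - q) = q := by omega
    rw [e1, e2]
  have h3 : ∑ q ∈ range (2 * p + 1), 2 * (A * W ^ q * A * Z ^ (2 * p - q)).trace =
      ∑ q ∈ range (2 * p + 1), ((A * W ^ q * A * Z ^ (2 * p - q)).trace +
        (A * W ^ (2 * p - q) * A * Z ^ q).trace) := by
    rw [Finset.sum_add_distrib, ← h2, ← Finset.mul_sum]
    ring
  rw [h3]
  have h4 : ∀ q ∈ range (2 * p + 1), (A * W ^ q * A * Z ^ (2 * p - q)).trace +
      (A * W ^ (2 * p - q) * A * Z ^ q).trace ≤
      (A * A * W ^ (2 * p)).trace + (A * A * Z ^ (2 * p)).trace := by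
    intro q hq
    have hq' := Finset.mem_range.1 hq
    exact heinz2 A W Z hA hWs hZs q (2 * p - q) p (by omega)
  refine (Finset.sum_le_sum h4).trans (le_of_eq ?_)
  rw [Finset.sum_const, Finset.card_range, nsmul_eq_mul]
  push_cast
  ring

theorem pow_diag_nonneg (X : Matrix ι ι ℝ) (hX : X.IsSymm) (p : ℕ) (i : ι) :
    0 ≤ (X ^ (2 * p)) i i := by
  have h1 : (X ^ p).IsSymm := hX.pow p
  rw [two_mul, pow_add, Matrix.mul_apply]
  refine Finset.sum_nonneg fun k _ => ?_
  rw [h1.apply i k]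
  exact mul_self_nonneg _

/-- the quadratic form is bounded by the trace of a high power -/
theorem qt (X : Matrix ι ι ℝ) (hX : X.IsSymm) (m : ℕ) (hm : 1 ≤ m) {t : ℝ} (ht : 0 ≤ t)
    (h : (X ^ (2 * m)).trace ≤ t ^ (2 * m)) (x : ι → ℝ) :
    |x ⬝ᵥ (X *ᵥ x)| ≤ t * (x ⬝ᵥ x) := by
  obtain ⟨U, l, hU1, hU2, hpow⟩ := diagS X hX
  have htr : (X ^ (2 * m)).trace = ∑ i, l i ^ (2 * m) := by
    rw [hpow, Matrix.trace_mul_comm, ← Matrix.mul_assoc, hU2, Matrix.one_mul, Matrix.trace_diagonal]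
  have hnn : ∀ i, 0 ≤ l i ^ (2 * m) := fun i => by
    rw [pow_mul]; positivity
  have hXU : X = U * diagonal l * U.transpose := by
    have := hpow 1
    simpa using this
  set y := x ᵥ* U with hy
  have hq : x ⬝ᵥ (X *ᵥ x) = ∑ k, l k * y k ^ 2 := by
    rw [hXU, ← Matrix.mulVec_mulVec, ← Matrix.mulVec_mulVec, Matrix.dotProduct_mulVec,
      Matrix.mulVec_transpose]
    simp only [dotProduct, Matrix.mulVec_diagonal]
    refine Finset.sum_congr rfl fun k _ => ?_
    ring
  have hxx : x ⬝ᵥ x = ∑ k, y k ^ 2 := by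
    have h1 : x ⬝ᵥ (U *ᵥ (U.transpose *ᵥ x)) = x ⬝ᵥ x := by
      rw [Matrix.mulVec_mulVec, hU1, Matrix.one_mulVec]
    rw [← h1, Matrix.dotProduct_mulVec, Matrix.mulVec_transpose]
    simp only [dotProduct]
    refine Finset.sum_congr rfl fun k _ => ?_
    ring
  have hl : ∀ k, |l k| ≤ t := by
    intro k
    have h3 : |l k| ^ (2 * m) ≤ t ^ (2 * m) := by
      have h4 : |l k| ^ (2 * m) = l k ^ (2 * m) := by
        rw [pow_mul, sq_abs, ← pow_mul]
      rw [h4]
      refine le_trans ?_ h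
      rw [htr]
      exact Finset.single_le_sum (f := fun i => l i ^ (2 * m)) (fun i _ => hnn i)
        (Finset.mem_univ k)
    exact le_of_pow_le_pow_left₀ (by omega) ht h3
  rw [hq, hxx, Finset.mul_sum]
  refine (Finset.abs_sum_le_sum_abs _ _).trans (Finset.sum_le_sum fun k _ => ?_)
  rw [abs_mul, abs_of_nonneg (sq_nonneg (y k))]
  exact mul_le_mul_of_nonneg_right (hl k) (sq_nonneg _)

end LinAlg

section Rad

variable {ι : Type*} [Fintype ι] [DecidableEq ι] {κ : Type*} [Fintype κ] [DecidableEq κ]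

/-- sign -/
def sgn (b : Bool) : ℝ := if b then 1 else -1

theorem sgn_not (b : Bool) : sgn (!b) = -sgn b := by cases b <;> simp [sgn]

/-- Rademacher series -/
noncomputable def RX (A : κ → Matrix ι ι ℝ) (ε : κ → Bool) : Matrix ι ι ℝ :=
  ∑ e, sgn (ε e) • A e

theorem RX_symm (A : κ → Matrix ι ι ℝ) (hA : ∀ e, (A e).IsSymm) (ε : κ → Bool) :
    (RX A ε).IsSymm := by
  unfold RX Matrix.IsSymm
  rw [Matrix.transpose_sum]
  refine Finset.sum_congr rfl fun i _ => ?_
  rw [Matrix.transpose_smul, (hA i).eq]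

/-- flip one sign -/
def flp (e : κ) (ε : κ → Bool) : κ → Bool := Function.update ε e (!(ε e))

theorem flp_invol (e : κ) : Function.Involutive (flp e : (κ → Bool) → (κ → Bool)) := by
  intro ε
  funext f
  unfold flp
  by_cases hf : f = e
  · subst hf
    simp
  · simp [hf]

theorem sum_flp (e : κ) (F : (κ → Bool) → ℝ) : ∑ ε, F (flp e ε) = ∑ ε, F ε :=
  Equiv.sum_comp ((flp_invol e).toPerm) F

theorem RX_flp (A : κ → Matrix ι ι ℝ) (ε : κ → Bool) (e : κ) :
    RX A (flp e ε) = RX A ε - (2 * sgn (ε e)) • A e := by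
  unfold RX
  rw [← Finset.add_sum_erase _ _ (Finset.mem_univ e), ← Finset.add_sum_erase _ _ (Finset.mem_univ e)]
  have h1 : ∑ x ∈ Finset.univ.erase e, sgn (flp e ε x) • A x =
      ∑ x ∈ Finset.univ.erase e, sgn (ε x) • A x := by
    refine Finset.sum_congr rfl fun x hx => ?_
    have hx' := (Finset.mem_erase.1 hx).1
    unfold flp
    rw [Function.update_of_ne hx']
  rw [h1]
  have h2 : sgn (flp e ε e) = -sgn (ε e) := by
    unfold flp
    rw [Function.update_self, sgn_not]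
  rw [h2]
  module

theorem pt_sign (A : κ → Matrix ι ι ℝ) (hA : ∀ e, (A e).IsSymm) (e : κ) (ε : κ → Bool) (p : ℕ) :
    sgn (ε e) * (A e * RX A ε ^ (2 * p + 1)).trace +
      sgn (flp e ε e) * (A e * RX A (flp e ε) ^ (2 * p + 1)).trace ≤
    (2 * p + 1) * ((A e * A e * RX A ε ^ (2 * p)).trace +
      (A e * A e * RX A (flp e ε) ^ (2 * p)).trace) := by
  have h2 : sgn (flp e ε e) = -sgn (ε e) := by
    unfold flp
    rw [Function.update_self, sgn_not]
  rw [h2]
  set Y := RX A ε - sgn (ε e) • A e with hY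
  have hYs : Y.IsSymm := (RX_symm A hA ε).sub ((hA e).smul _)
  have h3 := one_sign (A e) Y (hA e) hYs p
  have h4 : RX A ε = Y + sgn (ε e) • A e := by rw [hY]; abel
  have h5 : RX A (flp e ε) = Y - sgn (ε e) • A e := by
    rw [RX_flp, hY]
    module
  rw [h4, h5]
  cases hb : ε e
  · simp only [sgn, Bool.false_eq_true, if_false, neg_smul, one_smul, sub_neg_eq_add]
    have e1 : Y + -A e = Y - A e := by abel
    rw [e1]
    linarith
  · simp only [sgn, if_true, one_smul]
    linarith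

theorem sum_sign (A : κ → Matrix ι ι ℝ) (hA : ∀ e, (A e).IsSymm) (e : κ) (p : ℕ) :
    ∑ ε, sgn (ε e) * (A e * RX A ε ^ (2 * p + 1)).trace ≤
      (2 * p + 1) * ∑ ε, (A e * A e * RX A ε ^ (2 * p)).trace := by
  have h1 := Finset.sum_le_sum fun (ε : κ → Bool) (_ : ε ∈ Finset.univ) => pt_sign A hA e ε p
  rw [Finset.sum_add_distrib, ← Finset.mul_sum, Finset.sum_add_distrib,
    sum_flp e (fun ε => sgn (ε e) * (A e * RX A ε ^ (2 * p + 1)).trace),
    sum_flp e (fun ε => (A e * A e * RX A ε ^ (2 * p)).trace)] at h1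
  linarith

theorem tr_succ (A : κ → Matrix ι ι ℝ) (ε : κ → Bool) (k : ℕ) :
    (RX A ε ^ (k + 1)).trace = ∑ e, sgn (ε e) * (A e * RX A ε ^ k).trace := by
  have h1 : RX A ε ^ (k + 1) = ∑ e, sgn (ε e) • (A e * RX A ε ^ k) := by
    rw [pow_succ']
    conv_lhs => enter [1]; unfold RX
    rw [Finset.sum_mul]
    refine Finset.sum_congr rfl fun i _ => ?_
    rw [Matrix.smul_mul]
  rw [h1, Matrix.trace_sum]
  refine Finset.sum_congr rfl fun i _ => ?_
  rw [Matrix.trace_smul, smul_eq_mul]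

theorem rec_step (A : κ → Matrix ι ι ℝ) (hA : ∀ e, (A e).IsSymm) (D : ι → ℝ)
    (hD : ∑ e, A e * A e = diagonal D) (p : ℕ) :
    ∑ ε, (RX A ε ^ (2 * (p + 1))).trace ≤
      (2 * p + 1) * ∑ ε, ∑ i, D i * (RX A ε ^ (2 * p)) i i := by
  have e0 : 2 * (p + 1) = 2 * p + 1 + 1 := by ring
  have h1 : ∑ ε, (RX A ε ^ (2 * (p + 1))).trace =
      ∑ e, ∑ ε, sgn (ε e) * (A e * RX A ε ^ (2 * p + 1)).trace := by
    rw [Finset.sum_comm]
    refine Finset.sum_congr rfl fun ε _ => ?_
    rw [e0, tr_succ]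
  rw [h1]
  refine (Finset.sum_le_sum fun e _ => sum_sign A hA e p).trans (le_of_eq ?_)
  rw [← Finset.mul_sum]
  congr 1
  rw [Finset.sum_comm]
  refine Finset.sum_congr rfl fun ε _ => ?_
  rw [← Matrix.trace_sum, ← Finset.sum_mul, hD]
  unfold Matrix.trace
  refine Finset.sum_congr rfl fun i _ => ?_
  rw [Matrix.diag_apply, Matrix.diagonal_mul]

/-- **Moments of a Rademacher matrix series.** -/
theorem moments (A : κ → Matrix ι ι ℝ) (hA : ∀ e, (A e).IsSymm) (D : ι → ℝ)
    (hD : ∑ e, A e * A e = diagonal D) {σ : ℝ} (hσ : ∀ i, D i ≤ σ) (hσ0 : 0 ≤ σ) (p : ℕ) :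
    ∑ ε : κ → Bool, (RX A ε ^ (2 * (p + 1))).trace ≤
      2 ^ Fintype.card κ * ((∏ j ∈ range (p + 1), (2 * (j : ℝ) + 1)) * σ ^ p * ∑ i, D i) := by
  induction p with
  | zero =>
    refine (rec_step A hA D hD 0).trans (le_of_eq ?_)
    simp
  | succ p ih =>
    refine (rec_step A hA D hD (p + 1)).trans ?_
    have h1 : ∑ ε : κ → Bool, ∑ i, D i * (RX A ε ^ (2 * (p + 1))) i i ≤
        ∑ ε : κ → Bool, σ * (RX A ε ^ (2 * (p + 1))).trace := by
      refine Finset.sum_le_sum fun ε _ => ?_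
      unfold Matrix.trace
      rw [Finset.mul_sum]
      refine Finset.sum_le_sum fun i _ => ?_
      rw [Matrix.diag_apply]
      exact mul_le_mul_of_nonneg_right (hσ i) (pow_diag_nonneg _ (RX_symm A hA ε) _ _)
    rw [← Finset.mul_sum] at h1
    have h2 : (0 : ℝ) ≤ 2 * ((p + 1 : ℕ) : ℝ) + 1 := by positivity
    calc (2 * ((p + 1 : ℕ) : ℝ) + 1) * ∑ ε : κ → Bool, ∑ i, D i * (RX A ε ^ (2 * (p + 1))) i i
        ≤ (2 * ((p + 1 : ℕ) : ℝ) + 1) * (σ * ∑ ε : κ → Bool, (RX A ε ^ (2 * (p + 1))).trace) :=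
          mul_le_mul_of_nonneg_left h1 h2
      _ ≤ (2 * ((p + 1 : ℕ) : ℝ) + 1) * (σ * (2 ^ Fintype.card κ *
          ((∏ j ∈ range (p + 1), (2 * (j : ℝ) + 1)) * σ ^ p * ∑ i, D i))) := by
          gcongr
      _ = _ := by
          rw [Finset.prod_range_succ _ (p + 1)]
          ring

end Rad

end Pool.Agent.U319.PLE
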