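import Pool.Agent.U319.PL.K1

/-!
The random bilinear form of a matrix with independent random signs.
-/

namespace Pool.Agent.U319.PLE

open Matrix Finset

variable {L κ : Type*} [Fintype L] [DecidableEq L] [Fintype κ] [DecidableEq κ]

/-- the block of the edge `e` -/
def Xe (E : L → L → κ) (a : L → L → ℝ) (e : κ) : Matrix L L ℝ :=
  fun y w => if E y w = e then a y w else 0

/-- the symmetric dilation of `Xe` -/
def Ae (E : L → L → κ) (a : L → L → ℝ) (e : κ) : Matrix (L ⊕ L) (L ⊕ L) ℝ :=
  fromBlocks 0 (Xe E a e) (Xe E a e).transpose 0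

theorem Ae_symm (E : L → L → κ) (a : L → L → ℝ) (e : κ) : (Ae E a e).IsSymm := by
  unfold Ae Matrix.IsSymm
  rw [fromBlocks_transpose]
  simp

/-- the diagonal of the sum of squares -/
def Dd (a : L → L → ℝ) : L ⊕ L → ℝ
  | Sum.inl y => ∑ w, a y w ^ 2
  | Sum.inr w => ∑ y, a y w ^ 2

theorem Ae_sq (E : L → L → κ) (h1 : ∀ y y' w, E y w = E y' w → y = y')
    (h2 : ∀ y w w', E y w = E y w' → w = w') (a : L → L → ℝ) :
    ∑ e, Ae E a e * Ae E a e = diagonal (Dd a) := by
  have e1 : ∀ e, Ae E a e * Ae E a e = fromBlocks (Xe E a e * (Xe E a e).transpose) 0 0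
      ((Xe E a e).transpose * Xe E a e) := by
    intro e
    unfold Ae
    rw [fromBlocks_multiply]
    simp
  ext i j
  rw [Matrix.sum_apply]
  simp only [e1]
  rcases i with y | y <;> rcases j with y' | y'
  · simp only [fromBlocks_apply₁₁, Matrix.mul_apply, Matrix.transpose_apply, Xe]
    rw [Finset.sum_comm]
    by_cases hy : y = y'
    · subst hy
      rw [diagonal_apply_eq]
      refine Finset.sum_congr rfl fun w _ => ?_
      rw [Finset.sum_eq_single (E y w)]
      · simp; ring
      · intro e _ he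
        rw [if_neg (Ne.symm he)]; simp
      · intro h; exact absurd (Finset.mem_univ _) h
    · rw [diagonal_apply_ne]
      · refine Finset.sum_eq_zero fun w _ => Finset.sum_eq_zero fun e _ => ?_
        by_cases he : E y w = e
        · have : E y' w ≠ e := by
            intro h
            exact hy (h1 y y' w (he.trans h.symm))
          rw [if_neg this, mul_zero]
        · rw [if_neg he, zero_mul]
      · intro h
        exact hy (Sum.inl_injective h)
  · simp only [fromBlocks_apply₁₂, Matrix.zero_apply, Finset.sum_const_zero]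
    rw [diagonal_apply_ne]
    exact Sum.inl_ne_inr
  · simp only [fromBlocks_apply₂₁, Matrix.zero_apply, Finset.sum_const_zero]
    rw [diagonal_apply_ne]
    exact Sum.inr_ne_inl
  · simp only [fromBlocks_apply₂₂, Matrix.mul_apply, Matrix.transpose_apply, Xe]
    rw [Finset.sum_comm]
    by_cases hy : y = y'
    · subst hy
      rw [diagonal_apply_eq]
      refine Finset.sum_congr rfl fun w _ => ?_
      rw [Finset.sum_eq_single (E w y)]
      · simp; ring
      · intro e _ he
        rw [if_neg (Ne.symm he)]; simp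
      · intro h; exact absurd (Finset.mem_univ _) h
    · rw [diagonal_apply_ne]
      · refine Finset.sum_eq_zero fun w _ => Finset.sum_eq_zero fun e _ => ?_
        by_cases he : E w y = e
        · have : E w y' ≠ e := by
            intro h
            exact hy (h2 w y y' (he.trans h.symm))
          rw [if_neg this, mul_zero]
        · rw [if_neg he, zero_mul]
      · intro h
        exact hy (Sum.inr_injective h)

theorem RX_eq (E : L → L → κ) (a : L → L → ℝ) (ε : κ → Bool) :
    RX (Ae E a) ε = fromBlocks 0 (fun y w => sgn (ε (E y w)) * a y w)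
      (fun w y => sgn (ε (E y w)) * a y w) 0 := by
  unfold RX
  ext i j
  rw [Matrix.sum_apply]
  simp only [Matrix.smul_apply, smul_eq_mul, Ae]
  rcases i with y | y <;> rcases j with y' | y'
  · simp
  · simp only [fromBlocks_apply₁₂, Xe]
    rw [Finset.sum_eq_single (E y y')]
    · simp
    · intro e _ he
      rw [if_neg (Ne.symm he), mul_zero]
    · intro h; exact absurd (Finset.mem_univ _) h
  · simp only [fromBlocks_apply₂₁, Xe, Matrix.transpose_apply]
    rw [Finset.sum_eq_single (E y' y)]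
    · simp
    · intro e _ he
      rw [if_neg (Ne.symm he), mul_zero]
    · intro h; exact absurd (Finset.mem_univ _) h
  · simp

theorem formB (E : L → L → κ) (a : L → L → ℝ) (ε : κ → Bool) (m : ℕ) (hm : 1 ≤ m) {t : ℝ}
    (ht : 0 ≤ t) (h : (RX (Ae E a) ε ^ (2 * m)).trace ≤ t ^ (2 * m)) (u v : L → ℝ) :
    2 * |∑ y, ∑ w, sgn (ε (E y w)) * a y w * (u y * v w)| ≤
      t * (∑ y, u y ^ 2 + ∑ y, v y ^ 2) := by
  have h1 := qt (RX (Ae E a) ε) (RX_symm _ (Ae_symm E a) ε) m hm ht h (Sum.elim u v)
  have h2 : (Sum.elim u v) ⬝ᵥ (Sum.elim u v) = ∑ y, u y ^ 2 + ∑ y, v y ^ 2 := by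
    simp only [dotProduct, Fintype.sum_sum_type, Sum.elim_inl, Sum.elim_inr, sq]
  have h3 : (Sum.elim u v) ⬝ᵥ (RX (Ae E a) ε *ᵥ (Sum.elim u v)) =
      2 * ∑ y, ∑ w, sgn (ε (E y w)) * a y w * (u y * v w) := by
    rw [RX_eq]
    simp only [dotProduct, Fintype.sum_sum_type, Sum.elim_inl, Sum.elim_inr, mulVec,
      fromBlocks_apply₁₁, fromBlocks_apply₁₂, fromBlocks_apply₂₁, fromBlocks_apply₂₂,
      Matrix.zero_apply, zero_mul, Finset.sum_const_zero, zero_add, add_zero]
    rw [two_mul]
    congr 1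
    · refine Finset.sum_congr rfl fun y _ => ?_
      rw [Finset.mul_sum]
      refine Finset.sum_congr rfl fun w _ => ?_
      ring
    · rw [Finset.sum_comm]
      simp only [Finset.mul_sum]
      rw [Finset.sum_comm]
      rw [Finset.sum_comm]
      refine Finset.sum_congr rfl fun y _ => ?_
      refine Finset.sum_congr rfl fun w _ => ?_
      ring
  rw [h2, h3, abs_mul, abs_two] at h1
  exact h1

theorem momB (E : L → L → κ) (h1 : ∀ y y' w, E y w = E y' w → y = y')
    (h2 : ∀ y w w', E y w = E y w' → w = w') (a : L → L → ℝ) {σ : ℝ} (hσ0 : 0 ≤ σ)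
    (hσ : ∀ y, ∑ w, a y w ^ 2 ≤ σ) (hσ' : ∀ w, ∑ y, a y w ^ 2 ≤ σ) (p : ℕ) :
    ∑ ε : κ → Bool, (RX (Ae E a) ε ^ (2 * (p + 1))).trace ≤
      2 ^ Fintype.card κ * ((∏ j ∈ range (p + 1), (2 * (j : ℝ) + 1)) * σ ^ p *
        (2 * ∑ y, ∑ w, a y w ^ 2)) := by
  have h3 := moments (Ae E a) (Ae_symm E a) (Dd a) (Ae_sq E h1 h2 a)
    (by rintro (y | y) <;> simp only [Dd]; exacts [hσ y, hσ' y]) hσ0 p
  refine h3.trans (le_of_eq ?_)
  have h4 : ∑ i, Dd a i = 2 * ∑ y, ∑ w, a y w ^ 2 := by
    rw [Fintype.sum_sum_type]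
    simp only [Dd]
    rw [two_mul]
    congr 1
    exact Finset.sum_comm
  rw [h4]

end Pool.Agent.U319.PLE
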