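import Pool.Agent.U319.PL.K2
import Pool.Agent.H10R2.PL.SWA

/-!
Probability that the commutator form of the random hopping with a multiplication operator is
large.
-/

namespace Pool.Agent.U319.PLE

open Matrix Finset MeasureTheory ProbabilityTheory H10PL

theorem coin_singleton (b : Bool) : coin {b} = (2 : ENNReal)⁻¹ := by
  unfold coin
  rw [PMF.toMeasure_apply_singleton _ _ (measurableSet_singleton b), PMF.uniformOfFintype_apply]
  simp

/-- Markov's inequality for a finite family of fair coins -/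
theorem markov_coins {ι : Type*} [Fintype ι] [DecidableEq ι] (f : (ι → Bool) → ℝ)
    (hf : ∀ ε, 0 ≤ f ε) {M t : ℝ} (ht : 0 < t)
    (hM : ∑ ε, f ε ≤ 2 ^ Fintype.card ι * M) :
    (Measure.pi (fun _ : ι => coin)) {ε | t < f ε} ≤ ENNReal.ofReal (M / t) := by
  classical
  set S : Finset (ι → Bool) := Finset.univ.filter (fun ε => t < f ε) with hS
  have hS' : {ε | t < f ε} = (S : Set (ι → Bool)) := by
    ext ε; simp [hS]
  have hsing : ∀ ε : ι → Bool, (Measure.pi (fun _ : ι => coin)) {ε} =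
      (2 : ENNReal)⁻¹ ^ Fintype.card ι := by
    intro ε
    rw [Measure.pi_singleton]
    simp only [coin_singleton]
    rw [Finset.prod_const, Finset.card_univ]
  rw [hS', ← sum_measure_singleton]
  simp only [hsing]
  rw [Finset.sum_const, nsmul_eq_mul]
  have h1 : (S.card : ℝ) * t ≤ 2 ^ Fintype.card ι * M := by
    calc (S.card : ℝ) * t = ∑ ε ∈ S, t := by rw [Finset.sum_const, nsmul_eq_mul]
      _ ≤ ∑ ε ∈ S, f ε := Finset.sum_le_sum fun ε hε => by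
          rw [hS, Finset.mem_filter] at hε
          exact hε.2.le
      _ ≤ ∑ ε, f ε := Finset.sum_le_sum_of_subset_of_nonneg (Finset.subset_univ _)
          fun ε _ _ => hf ε
      _ ≤ _ := hM
  have h2 : (0 : ℝ) < 2 ^ Fintype.card ι := by positivity
  have h3 : (S.card : ℝ) * (2⁻¹ : ℝ) ^ Fintype.card ι ≤ M / t := by
    rw [le_div_iff₀ ht, inv_pow]
    calc (S.card : ℝ) * (2 ^ Fintype.card ι)⁻¹ * t = ((S.card : ℝ) * t) * (2 ^ Fintype.card ι)⁻¹ := by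
          ring
      _ ≤ (2 ^ Fintype.card ι * M) * (2 ^ Fintype.card ι)⁻¹ :=
          mul_le_mul_of_nonneg_right h1 (inv_nonneg.2 h2.le)
      _ = M := by field_simp
  refine le_trans (le_of_eq ?_) (ENNReal.ofReal_le_ofReal h3)
  rw [ENNReal.ofReal_mul (Nat.cast_nonneg _), ENNReal.ofReal_natCast,
    ENNReal.ofReal_pow (by norm_num)]
  congr 2
  rw [ENNReal.ofReal_inv_of_pos (by norm_num)]
  simp

theorem sgn_eq (b : Bool) : sgn b = sg b := by
  unfold sgn sg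
  rfl

variable {d : ℕ}

/-- the form of the antisymmetric amplitude `a` with random signs on a finite set -/
theorem bad_prob (a : (Fin d → ℤ) → (Fin d → ℤ) → ℝ) {σ N : ℝ} (hσ0 : 0 ≤ σ)
    (hσ : ∀ y (Λ : Finset (Fin d → ℤ)), ∑ w ∈ Λ, a y w ^ 2 ≤ σ)
    (hσ' : ∀ w (Λ : Finset (Fin d → ℤ)), ∑ y ∈ Λ, a y w ^ 2 ≤ σ)
    (Λ : Finset (Fin d → ℤ)) (hN : ∑ y ∈ Λ, ∑ w ∈ Λ, a y w ^ 2 ≤ N) (p : ℕ) {t : ℝ}
    (ht : 0 < t) :
    (Ps d) {s | ¬ ∀ u v : (Fin d → ℤ) → ℝ,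
      |∑ y ∈ Λ, ∑ w ∈ Λ, a y w * sg (s s(y, w)) * (u y * v w)| ≤
        t * (∑ y ∈ Λ, u y ^ 2 + ∑ y ∈ Λ, v y ^ 2)} ≤
      ENNReal.ofReal (((∏ j ∈ range (p + 1), (2 * (j : ℝ) + 1)) * σ ^ p * (2 * N)) /
        (2 * t) ^ (2 * (p + 1))) := by
  classical
  set I : Finset (Sym2 (Fin d → ℤ)) := (Λ ×ˢ Λ).image (fun q => s(q.1, q.2)) with hI
  have hE : ∀ y w : ↥Λ, s((y : Fin d → ℤ), (w : Fin d → ℤ)) ∈ I := by
    intro y w
    rw [hI]
    exact Finset.mem_image.2 ⟨(y.1, w.1), Finset.mem_product.2 ⟨y.2, w.2⟩, rfl⟩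
  set E : ↥Λ → ↥Λ → ↥I := fun y w => ⟨s((y : Fin d → ℤ), (w : Fin d → ℤ)), hE y w⟩ with hEdef
  have h1 : ∀ y y' w, E y w = E y' w → y = y' := by
    intro y y' w h
    have := congrArg Subtype.val h
    simp only [hEdef] at this
    rw [Sym2.eq_iff] at this
    rcases this with h | h
    · exact Subtype.ext h.1
    · exact Subtype.ext (h.1.trans h.2)
  have h2 : ∀ y w w', E y w = E y w' → w = w' := by
    intro y w w' h
    have := congrArg Subtype.val h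
    simp only [hEdef] at this
    rw [Sym2.eq_iff] at this
    rcases this with h | h
    · exact Subtype.ext h.2
    · exact Subtype.ext (h.2.trans h.1)
  set a' : ↥Λ → ↥Λ → ℝ := fun y w => a y w with ha'
  have hs1 : ∀ y, ∑ w, a' y w ^ 2 ≤ σ := by
    intro y
    rw [ha']
    have := hσ y Λ
    rw [← Finset.sum_coe_sort] at this
    exact this
  have hs2 : ∀ w, ∑ y, a' y w ^ 2 ≤ σ := by
    intro w
    rw [ha']
    have := hσ' w Λ
    rw [← Finset.sum_coe_sort] at this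
    exact this
  have hs3 : ∑ y, ∑ w, a' y w ^ 2 ≤ N := by
    rw [ha']
    have := hN
    rw [← Finset.sum_coe_sort] at this
    simp only [← Finset.sum_coe_sort Λ (fun w => a _ w ^ 2)] at this
    exact this
  have hmom := momB E h1 h2 a' hσ0 hs1 hs2 p
  have hprod : (0 : ℝ) ≤ ∏ j ∈ range (p + 1), (2 * (j : ℝ) + 1) :=
    Finset.prod_nonneg fun j _ => by positivity
  have hmom' : ∑ ε : ↥I → Bool, (RX (Ae E a') ε ^ (2 * (p + 1))).trace ≤
      2 ^ Fintype.card ↥I * ((∏ j ∈ range (p + 1), (2 * (j : ℝ) + 1)) * σ ^ p * (2 * N)) := by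
    refine hmom.trans ?_
    have : (0 : ℝ) ≤ σ ^ p := by positivity
    gcongr
  have hnn : ∀ ε : ↥I → Bool, 0 ≤ (RX (Ae E a') ε ^ (2 * (p + 1))).trace := by
    intro ε
    unfold Matrix.trace
    exact Finset.sum_nonneg fun i _ => pow_diag_nonneg _ (RX_symm _ (Ae_symm E a') ε) _ _
  have hmk := markov_coins (fun ε : ↥I → Bool => (RX (Ae E a') ε ^ (2 * (p + 1))).trace) hnn
    (t := (2 * t) ^ (2 * (p + 1))) (by positivity) hmom'
  have hmap := Measure.infinitePi_map_restrict (fun _ : Sym2 (Fin d → ℤ) => coin) (I := I)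
  refine le_trans ?_ hmk
  rw [← hmap, Measure.map_apply (by fun_prop) (Set.toFinite _).measurableSet]
  refine measure_mono ?_
  intro s hs
  simp only [Set.mem_ofPred_eq, Set.mem_preimage] at hs ⊢
  by_contra hcon
  rw [not_lt] at hcon
  apply hs
  intro u v
  have hform := formB E a' (I.restrict s) (p + 1) (Nat.le_add_left 1 p) (t := 2 * t)
    (by positivity) hcon (fun y => u y) (fun y => v y)
  have hf1 : ∑ y ∈ Λ, ∑ w ∈ Λ, a y w * sg (s s(y, w)) * (u y * v w) =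
      ∑ y : ↥Λ, ∑ w : ↥Λ, sgn (I.restrict s (E y w)) * a' y w * (u y * v w) := by
    rw [← Finset.sum_coe_sort]
    refine Finset.sum_congr rfl fun y _ => ?_
    rw [← Finset.sum_coe_sort]
    refine Finset.sum_congr rfl fun w _ => ?_
    rw [sgn_eq, ha', hEdef, Finset.restrict]
    ring
  have hf2 : ∀ g : (Fin d → ℤ) → ℝ, ∑ y : ↥Λ, g y ^ 2 = ∑ y ∈ Λ, g y ^ 2 := by
    intro g
    exact Finset.sum_coe_sort Λ (fun y => g y ^ 2)
  rw [hf1, ← hf2, ← hf2]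
  linarith

/-- passing to all finite sets at once -/
theorem bad_prob_all (a : (Fin d → ℤ) → (Fin d → ℤ) → ℝ) {σ N : ℝ} (hσ0 : 0 ≤ σ)
    (hσ : ∀ y (Λ : Finset (Fin d → ℤ)), ∑ w ∈ Λ, a y w ^ 2 ≤ σ)
    (hσ' : ∀ w (Λ : Finset (Fin d → ℤ)), ∑ y ∈ Λ, a y w ^ 2 ≤ σ)
    (hN : ∀ Λ : Finset (Fin d → ℤ), ∑ y ∈ Λ, ∑ w ∈ Λ, a y w ^ 2 ≤ N) (p : ℕ) {t : ℝ}
    (ht : 0 < t) :
    (Ps d) {s | ¬ ∀ (Λ : Finset (Fin d → ℤ)) (u v : (Fin d → ℤ) → ℝ),
      |∑ y ∈ Λ, ∑ w ∈ Λ, a y w * sg (s s(y, w)) * (u y * v w)| ≤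
        t * (∑ y ∈ Λ, u y ^ 2 + ∑ y ∈ Λ, v y ^ 2)} ≤
      ENNReal.ofReal (((∏ j ∈ range (p + 1), (2 * (j : ℝ) + 1)) * σ ^ p * (2 * N)) /
        (2 * t) ^ (2 * (p + 1))) := by
  classical
  have h1 : {s : Sym2 (Fin d → ℤ) → Bool | ¬ ∀ (Λ : Finset (Fin d → ℤ))
      (u v : (Fin d → ℤ) → ℝ),
      |∑ y ∈ Λ, ∑ w ∈ Λ, a y w * sg (s s(y, w)) * (u y * v w)| ≤
        t * (∑ y ∈ Λ, u y ^ 2 + ∑ y ∈ Λ, v y ^ 2)} =
      ⋃ Λ : Finset (Fin d → ℤ), {s | ¬ ∀ u v : (Fin d → ℤ) → ℝ,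
      |∑ y ∈ Λ, ∑ w ∈ Λ, a y w * sg (s s(y, w)) * (u y * v w)| ≤
        t * (∑ y ∈ Λ, u y ^ 2 + ∑ y ∈ Λ, v y ^ 2)} := by
    ext s
    simp only [Set.mem_ofPred_eq, Set.mem_iUnion, not_forall]
  have hmono : Monotone (fun Λ : Finset (Fin d → ℤ) => {s : Sym2 (Fin d → ℤ) → Bool |
      ¬ ∀ u v : (Fin d → ℤ) → ℝ,
      |∑ y ∈ Λ, ∑ w ∈ Λ, a y w * sg (s s(y, w)) * (u y * v w)| ≤
        t * (∑ y ∈ Λ, u y ^ 2 + ∑ y ∈ Λ, v y ^ 2)}) := by
    intro Λ Λ' hΛ s hs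
    simp only [Set.mem_ofPred_eq] at hs ⊢
    intro hcon
    apply hs
    intro u v
    have h2 := hcon (fun y => if y ∈ Λ then u y else 0) (fun y => if y ∈ Λ then v y else 0)
    have e1 : ∀ g : (Fin d → ℤ) → ℝ, ∑ y ∈ Λ', (if y ∈ Λ then g y else 0) ^ 2 =
        ∑ y ∈ Λ, g y ^ 2 := by
      intro g
      rw [← Finset.sum_subset hΛ]
      · refine Finset.sum_congr rfl fun y hy => ?_
        rw [if_pos hy]
      · intro y _ hy
        rw [if_neg hy]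
        ring
    have e2 : ∑ y ∈ Λ', ∑ w ∈ Λ', a y w * sg (s s(y, w)) *
        ((if y ∈ Λ then u y else 0) * (if w ∈ Λ then v w else 0)) =
        ∑ y ∈ Λ, ∑ w ∈ Λ, a y w * sg (s s(y, w)) * (u y * v w) := by
      rw [← Finset.sum_subset hΛ]
      · refine Finset.sum_congr rfl fun y hy => ?_
        rw [← Finset.sum_subset hΛ]
        · refine Finset.sum_congr rfl fun w hw => ?_
          rw [if_pos hy, if_pos hw]
        · intro w _ hw
          rw [if_neg hw]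
          ring
      · intro y _ hy
        refine Finset.sum_eq_zero fun w _ => ?_
        rw [if_neg hy]
        ring
    rw [e1, e1, e2] at h2
    exact h2
  rw [h1, (hmono.directed_le).measure_iUnion]
  exact iSup_le fun Λ => bad_prob a hσ0 hσ hσ' Λ (hN Λ) p ht

end Pool.Agent.U319.PLE
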