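import Pool.Agent.U319.PL.K3

/-!
Slowly varying cut-offs have a small commutator with the random hopping, almost surely.
-/

namespace Pool.Agent.U319.PLE

open Finset MeasureTheory ProbabilityTheory H10PL Filter Topology

variable {d : ℕ}

/-- the cut-off function at scale `R` -/
noncomputable def cf (R : ℕ) (y : Fin d → ℤ) : ℝ := max 0 (min 1 (2 - ‖y‖ / R))

theorem cf_nonneg (R : ℕ) (y : Fin d → ℤ) : 0 ≤ cf R y := le_max_left _ _

theorem cf_le_one (R : ℕ) (y : Fin d → ℤ) : cf R y ≤ 1 :=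
  max_le zero_le_one (min_le_left _ _)

theorem cf_one (R : ℕ) (hR : 0 < R) (y : Fin d → ℤ) (h : ‖y‖ ≤ R) : cf R y = 1 := by
  have hR' : (0 : ℝ) < R := by exact_mod_cast hR
  have h1 : ‖y‖ / R ≤ 1 := by rw [div_le_one hR']; exact h
  unfold cf
  rw [min_eq_left (by linarith), max_eq_right zero_le_one]

theorem cf_zero (R : ℕ) (hR : 0 < R) (y : Fin d → ℤ) (h : 2 * R ≤ ‖y‖) : cf R y = 0 := by
  have hR' : (0 : ℝ) < R := by exact_mod_cast hR
  have h1 : 2 ≤ ‖y‖ / R := by rw [le_div_iff₀ hR']; exact h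
  unfold cf
  rw [max_eq_left]
  exact (min_le_right _ _).trans (by linarith)

theorem cf_lip (R : ℕ) (y w : Fin d → ℤ) : |cf R y - cf R w| ≤ ‖y - w‖ / R := by
  unfold cf
  refine (abs_max_sub_max_le_max _ _ _ _).trans ?_
  rw [sub_self, abs_zero]
  have h0 : 0 ≤ ‖y - w‖ / (R : ℝ) := by positivity
  refine max_le h0 ((abs_min_sub_min_le_max _ _ _ _).trans ?_)
  rw [sub_self, abs_zero]
  refine max_le h0 ?_
  have h1 : (2 - ‖y‖ / (R : ℝ)) - (2 - ‖w‖ / (R : ℝ)) = (‖w‖ - ‖y‖) / R := by ring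
  rw [h1, abs_div, Nat.abs_cast]
  refine div_le_div_of_nonneg_right ?_ (Nat.cast_nonneg R)
  rw [← norm_sub_rev w y]
  exact abs_norm_sub_norm_le w y

theorem cf_diff (R : ℕ) (y w : Fin d → ℤ) : |cf R y - cf R w| ≤ 1 := by
  rw [abs_le]
  constructor <;>
    linarith [cf_nonneg R y, cf_nonneg R w, cf_le_one R y, cf_le_one R w]

/-- the box carrying `cf R` -/
noncomputable def bx (d R : ℕ) : Finset (Fin d → ℤ) := Finset.Icc (fun _ => -(2 * (R : ℤ))) (fun _ => 2 * (R : ℤ))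

theorem bx_card (R : ℕ) : (bx d R).card = (4 * R + 1) ^ d := by
  unfold bx
  rw [Pi.card_Icc]
  simp only [Int.card_Icc]
  rw [Finset.prod_const, Finset.card_univ, Fintype.card_fin]
  congr 1
  omega

theorem mem_bx {R : ℕ} {y : Fin d → ℤ} (h : ‖y‖ ≤ 2 * R) : y ∈ bx d R := by
  unfold bx
  rw [Finset.mem_Icc]
  rw [pi_norm_le_iff_of_nonneg (by positivity)] at h
  constructor <;> intro i
  · have := h i
    rw [Int.norm_eq_abs] at this
    have h2 := (abs_le.1 this).1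
    have h3 : ((-(2 * (R : ℤ)) : ℤ) : ℝ) ≤ ((y i : ℤ) : ℝ) := by push_cast; linarith
    exact_mod_cast h3
  · have := h i
    rw [Int.norm_eq_abs] at this
    have h2 := (abs_le.1 this).2
    have h3 : ((y i : ℤ) : ℝ) ≤ ((2 * (R : ℤ) : ℤ) : ℝ) := by push_cast; linarith
    exact_mod_cast h3

theorem cf_supp {R : ℕ} (hR : 0 < R) {y : Fin d → ℤ} (h : y ∉ bx d R) : cf R y = 0 := by
  apply cf_zero R hR
  by_contra hcon
  rw [not_le] at hcon
  exact h (mem_bx hcon.le)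

/-- the cut-off as a finitely supported function -/
noncomputable def cF (R : ℕ) (hR : 0 < R) : (Fin d → ℤ) →₀ ℝ :=
  Finsupp.onFinset (bx d R) (cf R) (fun y hy => by
    by_contra h
    exact hy (cf_supp hR h))

theorem min_sq_le {θ t : ℝ} (hθ0 : 0 < θ) (hθ : θ ≤ 2) (ht : 0 ≤ t) :
    (min 1 t) ^ 2 ≤ t ^ θ := by
  rcases le_total t 1 with h | h
  · rw [min_eq_right h, ← Real.rpow_natCast]
    exact Real.rpow_le_rpow_of_exponent_ge' ht h hθ0.le (by exact_mod_cast hθ)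
  · rw [min_eq_left h, one_pow]
    exact Real.one_le_rpow h hθ0.le

/-- the antisymmetric amplitude -/
noncomputable def am (κ : (Fin d → ℤ) → ℝ) (R : ℕ) (y w : Fin d → ℤ) : ℝ :=
  (cf R y - cf R w) * κ (y - w)

theorem am_sq_le (κ : (Fin d → ℤ) → ℝ) {θ : ℝ} (hθ0 : 0 < θ) (hθ : θ ≤ 2) (R : ℕ)
    (y w : Fin d → ℤ) :
    am κ R y w ^ 2 ≤ (κ (y - w) ^ 2 * ‖y - w‖ ^ θ) / (R : ℝ) ^ θ := by
  unfold am
  rw [mul_pow]
  have h1 : (cf R y - cf R w) ^ 2 ≤ (‖y - w‖ / R) ^ θ := by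
    refine le_trans ?_ (min_sq_le hθ0 hθ (by positivity))
    rw [← sq_abs]
    exact pow_le_pow_left₀ (abs_nonneg _) (le_min (cf_diff R y w) (cf_lip R y w)) 2
  rw [Real.div_rpow (norm_nonneg _) (Nat.cast_nonneg R)] at h1
  calc (cf R y - cf R w) ^ 2 * κ (y - w) ^ 2
      ≤ (‖y - w‖ ^ θ / (R : ℝ) ^ θ) * κ (y - w) ^ 2 :=
        mul_le_mul_of_nonneg_right h1 (sq_nonneg _)
    _ = _ := by ring

section bounds

variable (κ : (Fin d → ℤ) → ℝ) {θ : ℝ} (hθ0 : 0 < θ) (hθ : θ ≤ 2)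
  (hsum : Summable fun z => κ z ^ 2 * ‖z‖ ^ θ) (R : ℕ)

include hθ0 hθ hsum

theorem am_row (y : Fin d → ℤ) (Λ : Finset (Fin d → ℤ)) :
    ∑ w ∈ Λ, am κ R y w ^ 2 ≤ (∑' z, κ z ^ 2 * ‖z‖ ^ θ) / (R : ℝ) ^ θ := by
  have h1 : ∑ w ∈ Λ, am κ R y w ^ 2 ≤ (∑ w ∈ Λ, κ (y - w) ^ 2 * ‖y - w‖ ^ θ) / (R : ℝ) ^ θ := by
    rw [Finset.sum_div]
    exact Finset.sum_le_sum fun w _ => am_sq_le κ hθ0 hθ R y w
  refine h1.trans (div_le_div_of_nonneg_right ?_ (by positivity))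
  have h2 : Summable fun w => κ (y - w) ^ 2 * ‖y - w‖ ^ θ :=
    (Equiv.subLeft y).summable_iff.mpr hsum
  refine (h2.sum_le_tsum Λ (fun w _ => by positivity)).trans (le_of_eq ?_)
  exact (Equiv.subLeft y).tsum_eq (fun z => κ z ^ 2 * ‖z‖ ^ θ)

theorem am_col (w : Fin d → ℤ) (Λ : Finset (Fin d → ℤ)) :
    ∑ y ∈ Λ, am κ R y w ^ 2 ≤ (∑' z, κ z ^ 2 * ‖z‖ ^ θ) / (R : ℝ) ^ θ := by
  have h1 : ∑ y ∈ Λ, am κ R y w ^ 2 ≤ (∑ y ∈ Λ, κ (y - w) ^ 2 * ‖y - w‖ ^ θ) / (R : ℝ) ^ θ := by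
    rw [Finset.sum_div]
    exact Finset.sum_le_sum fun y _ => am_sq_le κ hθ0 hθ R y w
  refine h1.trans (div_le_div_of_nonneg_right ?_ (by positivity))
  have h2 : Summable fun y => κ (y - w) ^ 2 * ‖y - w‖ ^ θ :=
    (Equiv.subRight w).summable_iff.mpr hsum
  refine (h2.sum_le_tsum Λ (fun w _ => by positivity)).trans (le_of_eq ?_)
  exact (Equiv.subRight w).tsum_eq (fun z => κ z ^ 2 * ‖z‖ ^ θ)

theorem am_tot (hR : 0 < R) (Λ : Finset (Fin d → ℤ)) :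
    ∑ y ∈ Λ, ∑ w ∈ Λ, am κ R y w ^ 2 ≤
      2 * ((4 * R + 1) ^ d : ℕ) * ((∑' z, κ z ^ 2 * ‖z‖ ^ θ) / (R : ℝ) ^ θ) := by
  classical
  set σ : ℝ := (∑' z, κ z ^ 2 * ‖z‖ ^ θ) / (R : ℝ) ^ θ with hσ
  have hσ0 : 0 ≤ σ := div_nonneg (tsum_nonneg fun z => by positivity) (by positivity)
  have h1 : ∀ y w, am κ R y w ^ 2 ≤
      (if y ∈ bx d R then am κ R y w ^ 2 else 0) + (if w ∈ bx d R then am κ R y w ^ 2 else 0) := by
    intro y w
    by_cases hy : y ∈ bx d R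
    · rw [if_pos hy]
      have : (0 : ℝ) ≤ if w ∈ bx d R then am κ R y w ^ 2 else 0 := by
        split_ifs
        · positivity
        · exact le_rfl
      linarith
    · by_cases hw : w ∈ bx d R
      · rw [if_neg hy, if_pos hw, zero_add]
      · rw [if_neg hy, if_neg hw]
        unfold am
        rw [cf_supp hR hy, cf_supp hR hw]
        simp
  have h2 : ∑ y ∈ Λ, ∑ w ∈ Λ, (if y ∈ bx d R then am κ R y w ^ 2 else 0) ≤
      ((4 * R + 1) ^ d : ℕ) * σ := by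
    calc ∑ y ∈ Λ, ∑ w ∈ Λ, (if y ∈ bx d R then am κ R y w ^ 2 else 0)
        = ∑ y ∈ Λ, (if y ∈ bx d R then ∑ w ∈ Λ, am κ R y w ^ 2 else 0) := by
          refine Finset.sum_congr rfl fun y _ => ?_
          split_ifs
          · rfl
          · exact Finset.sum_const_zero
      _ = ∑ y ∈ Λ.filter (· ∈ bx d R), ∑ w ∈ Λ, am κ R y w ^ 2 := by rw [Finset.sum_filter]
      _ ≤ ∑ y ∈ Λ.filter (· ∈ bx d R), σ :=
          Finset.sum_le_sum fun y _ => am_row κ hθ0 hθ hsum R y Λ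
      _ = ((Λ.filter (· ∈ bx d R)).card : ℝ) * σ := by rw [Finset.sum_const, nsmul_eq_mul]
      _ ≤ ((4 * R + 1) ^ d : ℕ) * σ := by
          refine mul_le_mul_of_nonneg_right ?_ hσ0
          rw [← bx_card]
          exact_mod_cast Finset.card_le_card (fun y hy => (Finset.mem_filter.1 hy).2)
  have h3 : ∑ y ∈ Λ, ∑ w ∈ Λ, (if w ∈ bx d R then am κ R y w ^ 2 else 0) ≤
      ((4 * R + 1) ^ d : ℕ) * σ := by
    rw [Finset.sum_comm]
    calc ∑ w ∈ Λ, ∑ y ∈ Λ, (if w ∈ bx d R then am κ R y w ^ 2 else 0)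
        = ∑ w ∈ Λ, (if w ∈ bx d R then ∑ y ∈ Λ, am κ R y w ^ 2 else 0) := by
          refine Finset.sum_congr rfl fun y _ => ?_
          split_ifs
          · rfl
          · exact Finset.sum_const_zero
      _ = ∑ w ∈ Λ.filter (· ∈ bx d R), ∑ y ∈ Λ, am κ R y w ^ 2 := by rw [Finset.sum_filter]
      _ ≤ ∑ w ∈ Λ.filter (· ∈ bx d R), σ :=
          Finset.sum_le_sum fun y _ => am_col κ hθ0 hθ hsum R y Λ
      _ = ((Λ.filter (· ∈ bx d R)).card : ℝ) * σ := by rw [Finset.sum_const, nsmul_eq_mul]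
      _ ≤ ((4 * R + 1) ^ d : ℕ) * σ := by
          refine mul_le_mul_of_nonneg_right ?_ hσ0
          rw [← bx_card]
          exact_mod_cast Finset.card_le_card (fun y hy => (Finset.mem_filter.1 hy).2)
  have h4 : ∑ y ∈ Λ, ∑ w ∈ Λ, am κ R y w ^ 2 ≤
      ∑ y ∈ Λ, ∑ w ∈ Λ, (if y ∈ bx d R then am κ R y w ^ 2 else 0) +
      ∑ y ∈ Λ, ∑ w ∈ Λ, (if w ∈ bx d R then am κ R y w ^ 2 else 0) := by
    rw [← Finset.sum_add_distrib]
    refine Finset.sum_le_sum fun y _ => ?_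
    rw [← Finset.sum_add_distrib]
    exact Finset.sum_le_sum fun w _ => h1 y w
  linarith

end bounds

/-- the probability bound tends to zero -/
theorem bound_tendsto {θ : ℝ} (K t P : ℝ) (p : ℕ) (hp : (d : ℝ) < θ * (p + 1)) :
    Tendsto (fun R : ℕ => (P * (K / (R : ℝ) ^ θ) ^ p *
      (2 * (2 * ((4 * R + 1) ^ d : ℕ) * (K / (R : ℝ) ^ θ)))) / (2 * t) ^ (2 * (p + 1))) atTop
      (𝓝 0) := by
  have h1 : Tendsto (fun R : ℕ => ((R : ℝ)) ^ (-(θ * (p + 1) - d))) atTop (𝓝 0) :=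
    (tendsto_rpow_neg_atTop (by linarith)).comp tendsto_natCast_atTop_atTop
  have h2 : Tendsto (fun R : ℕ => (4 + 1 / (R : ℝ)) ^ d) atTop (𝓝 ((4 + 0) ^ d)) :=
    (tendsto_const_nhds.add tendsto_one_div_atTop_nhds_zero_nat).pow d
  have h3 := (h1.mul h2).const_mul (4 * P * K ^ (p + 1) / (2 * t) ^ (2 * (p + 1)))
  rw [zero_mul, mul_zero] at h3
  refine h3.congr' ?_
  filter_upwards [eventually_gt_atTop 0] with R hR
  have hR' : (0 : ℝ) < R := by exact_mod_cast hR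
  have e1 : ((R : ℝ)) ^ (-(θ * (p + 1) - d)) = (R : ℝ) ^ d / ((R : ℝ) ^ θ) ^ (p + 1) := by
    rw [neg_sub, Real.rpow_sub hR', Real.rpow_natCast]
    congr 1
    rw [← Real.rpow_natCast, ← Real.rpow_mul hR'.le]
    push_cast
    rfl
  have e2 : (R : ℝ) ^ d * (4 + 1 / (R : ℝ)) ^ d = (4 * (R : ℝ) + 1) ^ d := by
    rw [← mul_pow]
    congr 1
    field_simp
  have e3 : (((4 * R + 1) ^ d : ℕ) : ℝ) = (4 * (R : ℝ) + 1) ^ d := by push_cast; rfl
  rw [e1, e3, ← e2]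
  have hθR : (0 : ℝ) < (R : ℝ) ^ θ := by positivity
  rw [div_pow]
  obtain ⟨X, hX⟩ : ∃ X : ℝ, X = (R : ℝ) ^ θ := ⟨_, rfl⟩
  rw [← hX] at hθR ⊢
  rw [pow_succ X p, pow_succ K p]
  obtain ⟨Y, hY⟩ : ∃ Y : ℝ, Y = (2 * t) ^ (2 * (p + 1)) := ⟨_, rfl⟩
  rw [← hY]
  by_cases hY0 : Y = 0
  · rw [hY0]; simp
  · field_simp
    ring

section main

variable {T0 : (Fin d → ℤ) → (Fin d → ℤ) → ℝ} {κ : (Fin d → ℤ) → ℝ} {ρ0 b : ℝ}

/-- good scales exist beyond every bound, almost surely -/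
theorem good_scales {θ : ℝ} (hθ0 : 0 < θ) (hθ : θ ≤ 2)
    (hsum : Summable fun z => κ z ^ 2 * ‖z‖ ^ θ) :
    ∀ᵐ s ∂(Ps d), ∀ k R0 : ℕ, ∃ R : ℕ, R0 ≤ R ∧ 0 < R ∧
      ∀ (Λ : Finset (Fin d → ℤ)) (u v : (Fin d → ℤ) → ℝ),
      |∑ y ∈ Λ, ∑ w ∈ Λ, am κ R y w * sg (s s(y, w)) * (u y * v w)| ≤
        (1 / ((k : ℝ) + 1)) * (∑ y ∈ Λ, u y ^ 2 + ∑ y ∈ Λ, v y ^ 2) := by
  rw [ae_all_iff]
  intro k
  rw [ae_all_iff]
  intro R0
  obtain ⟨p, hp⟩ : ∃ p : ℕ, (d : ℝ) < θ * (p + 1) := by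
    obtain ⟨p, hp⟩ := exists_nat_gt ((d : ℝ) / θ)
    refine ⟨p, ?_⟩
    rw [div_lt_iff₀ hθ0] at hp
    nlinarith
  have ht : (0 : ℝ) < 1 / ((k : ℝ) + 1) := by positivity
  have hK0 : 0 ≤ ∑' z : Fin d → ℤ, κ z ^ 2 * ‖z‖ ^ θ := tsum_nonneg fun z => by positivity
  have hlim := bound_tendsto (d := d) (∑' z : Fin d → ℤ, κ z ^ 2 * ‖z‖ ^ θ)
    (1 / ((k : ℝ) + 1)) (∏ j ∈ range (p + 1), (2 * (j : ℝ) + 1)) p hp
  have hlim' := ENNReal.tendsto_ofReal hlim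
  rw [ENNReal.ofReal_zero] at hlim'
  rw [ae_iff]
  refine le_antisymm ?_ (bot_le)
  refine ge_of_tendsto hlim' ?_
  filter_upwards [eventually_ge_atTop (max R0 1)] with R hR
  have hR1 : 0 < R := lt_of_lt_of_le one_pos ((le_max_right _ _).trans hR)
  have hR0 : R0 ≤ R := (le_max_left _ _).trans hR
  refine le_trans (measure_mono ?_) (bad_prob_all (am κ R)
    (div_nonneg hK0 (by positivity)) (fun y Λ => am_row κ hθ0 hθ hsum R y Λ)
    (fun w Λ => am_col κ hθ0 hθ hsum R w Λ) (fun Λ => am_tot κ hθ0 hθ hsum R hR1 Λ) p ht)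
  intro s hs
  simp only [Set.mem_ofPred_eq] at hs ⊢
  intro hcon
  exact hs ⟨R, hR0, hR1, hcon⟩

/-- **Commutators with slowly varying cut-offs are small, almost surely.** -/
theorem cutOK_ae (h : Adm T0 κ ρ0 b) {θ : ℝ} (hθ0 : 0 < θ) (hθ : θ ≤ 2)
    (hsum : Summable fun z => κ z ^ 2 * ‖z‖ ^ θ) : ∀ᵐ s ∂(Ps d), CutOK T0 κ s := by
  classical
  filter_upwards [good_scales (d := d) hθ0 hθ hsum] with s hs
  intro ε hε F
  obtain ⟨k, hk⟩ := exists_nat_gt (2 / ε)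
  have hk' : 1 / ((k : ℝ) + 1) ≤ ε / 2 := by
    rw [div_lt_iff₀ hε] at hk
    rw [div_le_div_iff₀ (by positivity) (by norm_num)]
    nlinarith
  obtain ⟨R1, hR1⟩ := exists_nat_ge (∑ y ∈ F, ‖y‖)
  obtain ⟨R2, hR2⟩ := exists_nat_ge (|ρ0| * b / ε)
  obtain ⟨R, hR, hR0, hform⟩ := hs k (max R1 R2)
  have hb : 0 ≤ b := by simpa using h.T0sum 0 ∅
  have hR' : (0 : ℝ) < R := by exact_mod_cast hR0
  refine ⟨cF R hR0, ?_, ?_, ?_⟩
  · intro y
    exact ⟨cf_nonneg R y, cf_le_one R y⟩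
  · intro y hy
    refine cf_one R hR0 y ?_
    have h1 : ‖y‖ ≤ ∑ y ∈ F, ‖y‖ := Finset.single_le_sum (f := fun y => ‖y‖)
      (fun y _ => norm_nonneg y) hy
    have h2 : (R1 : ℝ) ≤ R := by exact_mod_cast (le_max_left _ _).trans hR
    linarith
  · intro Λ u v
    have e1 : ∑ y ∈ Λ, ∑ w ∈ Λ, (cF R hR0 y - cF R hR0 w) * Kf T0 κ s y w * (u y * v w) =
        ∑ y ∈ Λ, ∑ w ∈ Λ, (cf R y - cf R w) * T0 y w * (u y * v w) +
        ∑ y ∈ Λ, ∑ w ∈ Λ, am κ R y w * sg (s s(y, w)) * (u y * v w) := by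
      rw [← Finset.sum_add_distrib]
      refine Finset.sum_congr rfl fun y _ => ?_
      rw [← Finset.sum_add_distrib]
      refine Finset.sum_congr rfl fun w _ => ?_
      show (cf R y - cf R w) * Kf T0 κ s y w * (u y * v w) = _
      unfold Kf am
      ring
    rw [e1]
    refine (abs_add_le _ _).trans ?_
    have h1 := hform Λ u v
    have hS0 : 0 ≤ ∑ y ∈ Λ, u y ^ 2 + ∑ y ∈ Λ, v y ^ 2 :=
      add_nonneg (Finset.sum_nonneg fun y _ => sq_nonneg _)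
        (Finset.sum_nonneg fun y _ => sq_nonneg _)
    have h2 : |∑ y ∈ Λ, ∑ w ∈ Λ, (cf R y - cf R w) * T0 y w * (u y * v w)| ≤
        (|ρ0| / R) * (b / 2) * (∑ y ∈ Λ, u y ^ 2 + ∑ y ∈ Λ, v y ^ 2) := by
      have h3 : ∀ y w, |(cf R y - cf R w) * T0 y w * (u y * v w)| ≤
          (|ρ0| / R) / 2 * (|T0 y w| * u y ^ 2) + (|ρ0| / R) / 2 * (|T0 y w| * v w ^ 2) := by
        intro y w
        by_cases hT : ρ0 < ‖y - w‖
        · rw [h.T0range y w hT]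
          simp
        · rw [not_lt] at hT
          have h4 : |cf R y - cf R w| ≤ |ρ0| / R := by
            refine (cf_lip R y w).trans (div_le_div_of_nonneg_right ?_ hR'.le)
            exact hT.trans (le_abs_self _)
          have h5 : |u y * v w| ≤ (u y ^ 2 + v w ^ 2) / 2 := by
            rw [abs_le]
            constructor <;> nlinarith [sq_nonneg (u y + v w), sq_nonneg (u y - v w)]
          rw [abs_mul, abs_mul]
          calc |cf R y - cf R w| * |T0 y w| * |u y * v w|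
              ≤ (|ρ0| / R) * |T0 y w| * ((u y ^ 2 + v w ^ 2) / 2) := by
                gcongr
            _ = _ := by ring
      calc |∑ y ∈ Λ, ∑ w ∈ Λ, (cf R y - cf R w) * T0 y w * (u y * v w)|
          ≤ ∑ y ∈ Λ, ∑ w ∈ Λ, |(cf R y - cf R w) * T0 y w * (u y * v w)| := by
            refine (Finset.abs_sum_le_sum_abs _ _).trans ?_
            exact Finset.sum_le_sum fun y _ => Finset.abs_sum_le_sum_abs _ _
        _ ≤ ∑ y ∈ Λ, ∑ w ∈ Λ, ((|ρ0| / R) / 2 * (|T0 y w| * u y ^ 2) +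
              (|ρ0| / R) / 2 * (|T0 y w| * v w ^ 2)) :=
            Finset.sum_le_sum fun y _ => Finset.sum_le_sum fun w _ => h3 y w
        _ = (|ρ0| / R) / 2 * ∑ y ∈ Λ, (∑ w ∈ Λ, |T0 y w|) * u y ^ 2 +
              (|ρ0| / R) / 2 * ∑ w ∈ Λ, (∑ y ∈ Λ, |T0 w y|) * v w ^ 2 := by
            simp only [Finset.sum_add_distrib]
            congr 1
            · rw [Finset.mul_sum]
              refine Finset.sum_congr rfl fun y _ => ?_
              rw [Finset.sum_mul, Finset.mul_sum]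
            · rw [Finset.sum_comm, Finset.mul_sum]
              refine Finset.sum_congr rfl fun w _ => ?_
              rw [Finset.sum_mul, Finset.mul_sum]
              refine Finset.sum_congr rfl fun y _ => ?_
              rw [h.T0symm y w]
        _ ≤ (|ρ0| / R) / 2 * ∑ y ∈ Λ, b * u y ^ 2 +
              (|ρ0| / R) / 2 * ∑ w ∈ Λ, b * v w ^ 2 := by
            refine add_le_add (mul_le_mul_of_nonneg_left ?_ (by positivity))
              (mul_le_mul_of_nonneg_left ?_ (by positivity))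
            · exact Finset.sum_le_sum fun y _ =>
                mul_le_mul_of_nonneg_right (h.T0sum y Λ) (sq_nonneg _)
            · exact Finset.sum_le_sum fun y _ =>
                mul_le_mul_of_nonneg_right (h.T0sum y Λ) (sq_nonneg _)
        _ = _ := by
            rw [← Finset.mul_sum, ← Finset.mul_sum]
            ring
    have h6 : (|ρ0| / R) * (b / 2) ≤ ε / 2 := by
      have h7 : |ρ0| * b / ε ≤ R := hR2.trans (by exact_mod_cast (le_max_right _ _).trans hR)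
      rw [div_le_iff₀ hε] at h7
      rw [div_mul_eq_mul_div, div_le_iff₀ hR']
      linarith
    calc _ ≤ (|ρ0| / R) * (b / 2) * (∑ y ∈ Λ, u y ^ 2 + ∑ y ∈ Λ, v y ^ 2) +
          (1 / ((k : ℝ) + 1)) * (∑ y ∈ Λ, u y ^ 2 + ∑ y ∈ Λ, v y ^ 2) := add_le_add h2 h1
      _ ≤ ε / 2 * (∑ y ∈ Λ, u y ^ 2 + ∑ y ∈ Λ, v y ^ 2) +
          ε / 2 * (∑ y ∈ Λ, u y ^ 2 + ∑ y ∈ Λ, v y ^ 2) :=
          add_le_add (mul_le_mul_of_nonneg_right h6 hS0) (mul_le_mul_of_nonneg_right hk' hS0)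
      _ = _ := by ring

end main

end Pool.Agent.U319.PLE
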