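import Pool.Agent.U319.PL.K4
import Pool.Agent.U319.PL.E3

/-!
Complex energies, complex wave functions, power-law profiles, and the Gaussian potential of
strength `σ`.
-/

namespace Pool.Agent.U319.PLE

open Finset MeasureTheory ProbabilityTheory H10PL Filter Topology

variable {d : ℕ}

section nonreal

variable {T0 : (Fin d → ℤ) → (Fin d → ℤ) → ℝ} {κ : (Fin d → ℤ) → ℝ} {ρ0 b : ℝ}

/-- no square summable solutions at non-real energies -/
theorem nonreal (h : Adm T0 κ ρ0 b) (s : Sym2 (Fin d → ℤ) → Bool) (hc : CutOK T0 κ s)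
    (V : (Fin d → ℤ) → ℝ) (E η : ℝ) (hη : η ≠ 0) (u v : (Fin d → ℤ) → ℝ)
    (hu : Summable fun y => u y ^ 2) (hv : Summable fun y => v y ^ 2)
    (e1 : ∀ y, (∑' w, Kf T0 κ s y w * u w) + V y * u y = E * u y - η * v y)
    (e2 : ∀ y, (∑' w, Kf T0 κ s y w * v w) + V y * v y = η * u y + E * v y) (x : Fin d → ℤ) :
    u x ^ 2 + v x ^ 2 = 0 := by
  classical
  obtain ⟨n, hn⟩ : ∃ n : ℝ, n = ∑' y, u y ^ 2 + ∑' y, v y ^ 2 := ⟨_, rfl⟩
  have hn0 : 0 ≤ n := by
    rw [hn]
    exact add_nonneg (tsum_nonneg fun y => sq_nonneg _) (tsum_nonneg fun y => sq_nonneg _)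
  have key : ∀ ε : ℝ, 0 < ε → |η| * (u x ^ 2 + v x ^ 2) ≤ ε := by
    intro ε hε
    have hε' : 0 < ε / (n + 1) := by positivity
    obtain ⟨χ, hχ1, hχ2, hχ3⟩ := hc (ε / (n + 1)) hε' {x}
    have hχx : χ x = 1 := hχ2 x (Finset.mem_singleton_self x)
    obtain ⟨S, hS⟩ : ∃ S, S = ∑ y ∈ χ.support, χ y * v y * ∑' w, Kf T0 κ s y w * u w -
      ∑ w ∈ χ.support, χ w * u w * ∑' y, Kf T0 κ s w y * v y := ⟨_, rfl⟩
    have hSb : |S| ≤ ε := by
      have hlim : Tendsto (fun Λ : Finset (Fin d → ℤ) =>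
          ∑ y ∈ Λ, ∑ w ∈ Λ, (χ y - χ w) * Kf T0 κ s y w * (v y * u w)) atTop (𝓝 S) := by
        have h1 : Tendsto (fun Λ : Finset (Fin d → ℤ) =>
            ∑ y ∈ χ.support, χ y * v y * ∑ w ∈ Λ, Kf T0 κ s y w * u w -
            ∑ w ∈ χ.support, χ w * u w * ∑ y ∈ Λ, Kf T0 κ s w y * v y) atTop (𝓝 S) := by
          rw [hS]
          apply Tendsto.sub
          · apply tendsto_finsetSum
            intro y _
            exact ((cs_tsum (Kf_sq_summable h s y) hu).1.hasSum).const_mul _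
          · apply tendsto_finsetSum
            intro y _
            exact ((cs_tsum (Kf_sq_summable h s y) hv).1.hasSum).const_mul _
        refine h1.congr' ?_
        filter_upwards [eventually_ge_atTop χ.support] with Λ hΛ
        have h2 : ∑ y ∈ Λ, ∑ w ∈ Λ, (χ y - χ w) * Kf T0 κ s y w * (v y * u w) =
            ∑ y ∈ Λ, χ y * v y * ∑ w ∈ Λ, Kf T0 κ s y w * u w -
            ∑ w ∈ Λ, χ w * u w * ∑ y ∈ Λ, Kf T0 κ s w y * v y := by
          have h3 : ∑ w ∈ Λ, χ w * u w * ∑ y ∈ Λ, Kf T0 κ s w y * v y =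
              ∑ y ∈ Λ, ∑ w ∈ Λ, χ w * Kf T0 κ s y w * (v y * u w) := by
            rw [Finset.sum_comm]
            refine Finset.sum_congr rfl fun w _ => ?_
            rw [Finset.mul_sum]
            refine Finset.sum_congr rfl fun y _ => ?_
            rw [Kf_symm h s w y]
            ring
          rw [h3, ← Finset.sum_sub_distrib]
          refine Finset.sum_congr rfl fun y _ => ?_
          rw [Finset.mul_sum, ← Finset.sum_sub_distrib]
          refine Finset.sum_congr rfl fun w _ => ?_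
          ring
        rw [h2]
        congr 1
        · refine Finset.sum_subset hΛ fun y _ hy => ?_
          rw [Finsupp.notMem_support_iff.mp hy]
          ring
        · refine Finset.sum_subset hΛ fun y _ hy => ?_
          rw [Finsupp.notMem_support_iff.mp hy]
          ring
      have hle : ∀ Λ : Finset (Fin d → ℤ),
          |∑ y ∈ Λ, ∑ w ∈ Λ, (χ y - χ w) * Kf T0 κ s y w * (v y * u w)| ≤ ε := by
        intro Λ
        refine (hχ3 Λ v u).trans ?_
        have h4 : ∑ y ∈ Λ, v y ^ 2 + ∑ y ∈ Λ, u y ^ 2 ≤ n := by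
          have h5 := hv.sum_le_tsum Λ (fun y _ => sq_nonneg _)
          have h6 := hu.sum_le_tsum Λ (fun y _ => sq_nonneg _)
          rw [hn]
          linarith
        calc ε / (n + 1) * (∑ y ∈ Λ, v y ^ 2 + ∑ y ∈ Λ, u y ^ 2)
            ≤ ε / (n + 1) * n := mul_le_mul_of_nonneg_left h4 hε'.le
          _ ≤ ε / (n + 1) * (n + 1) := mul_le_mul_of_nonneg_left (by linarith) hε'.le
          _ = ε := by field_simp
      exact le_of_tendsto' hlim.abs hle
    have hid : S = -(η * ∑ y ∈ χ.support, χ y * (u y ^ 2 + v y ^ 2)) := by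
      rw [hS, ← Finset.sum_sub_distrib, Finset.mul_sum, ← Finset.sum_neg_distrib]
      refine Finset.sum_congr rfl fun y _ => ?_
      linear_combination (χ y * v y) * e1 y - (χ y * u y) * e2 y
    have hge : u x ^ 2 + v x ^ 2 ≤ ∑ y ∈ χ.support, χ y * (u y ^ 2 + v y ^ 2) := by
      have hx : x ∈ χ.support := by
        rw [Finsupp.mem_support_iff, hχx]
        exact one_ne_zero
      have := Finset.single_le_sum (f := fun y => χ y * (u y ^ 2 + v y ^ 2))
        (fun y _ => mul_nonneg (hχ1 y).1 (by positivity)) hx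
      simpa [hχx] using this
    rw [hid, abs_neg, abs_mul] at hSb
    have h8 : 0 ≤ ∑ y ∈ χ.support, χ y * (u y ^ 2 + v y ^ 2) :=
      Finset.sum_nonneg fun y _ => mul_nonneg (hχ1 y).1 (by positivity)
    rw [abs_of_nonneg h8] at hSb
    exact (mul_le_mul_of_nonneg_left hge (abs_nonneg η)).trans hSb
  have h9 : |η| * (u x ^ 2 + v x ^ 2) ≤ 0 := le_of_forall_pos_le_add fun ε hε => by
    rw [zero_add]; exact key ε hε
  have hη' : 0 < |η| := abs_pos.2 hη
  nlinarith [sq_nonneg (u x), sq_nonneg (v x)]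

/-- from real to complex -/
theorem complexify (h : Adm T0 κ ρ0 b) (s : Sym2 (Fin d → ℤ) → Bool) (hc : CutOK T0 κ s)
    (V : (Fin d → ℤ) → ℝ) (hreal : ∀ E ψ, IsEig T0 κ s V E ψ → ψ = 0) (E : ℂ)
    (ψ : (Fin d → ℤ) → ℂ) (hψ : Summable fun x => ‖ψ x‖ ^ 2)
    (he : ∀ x, (∑' y, ((Kf T0 κ s x y : ℝ) : ℂ) * ψ y) + ((V x : ℝ) : ℂ) * ψ x = E * ψ x) :
    ψ = 0 := by
  have hu : Summable fun y => (ψ y).re ^ 2 := by
    refine Summable.of_nonneg_of_le (fun y => sq_nonneg _) (fun y => ?_) hψ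
    rw [← sq_abs]
    exact pow_le_pow_left₀ (abs_nonneg _) (Complex.abs_re_le_norm _) 2
  have hv : Summable fun y => (ψ y).im ^ 2 := by
    refine Summable.of_nonneg_of_le (fun y => sq_nonneg _) (fun y => ?_) hψ
    rw [← sq_abs]
    exact pow_le_pow_left₀ (abs_nonneg _) (Complex.abs_im_le_norm _) 2
  have hs : ∀ x, HasSum (fun y => ((Kf T0 κ s x y : ℝ) : ℂ) * ψ y)
      (((∑' y, Kf T0 κ s x y * (ψ y).re : ℝ) : ℂ) +
        ((∑' y, Kf T0 κ s x y * (ψ y).im : ℝ) : ℂ) * Complex.I) := by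
    intro x
    have h1 := (Complex.hasSum_ofReal.2 ((cs_tsum (Kf_sq_summable h s x) hu).1.hasSum))
    have h2 := (Complex.hasSum_ofReal.2 ((cs_tsum (Kf_sq_summable h s x) hv).1.hasSum)).mul_right
      Complex.I
    convert h1.add h2 using 1
    funext y
    apply Complex.ext <;> simp
  have hre : ∀ x, (∑' y, Kf T0 κ s x y * (ψ y).re) + V x * (ψ x).re =
      E.re * (ψ x).re - E.im * (ψ x).im := by
    intro x
    have h1 := he x
    rw [(hs x).tsum_eq] at h1
    have h2 := congrArg Complex.re h1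
    simpa using h2
  have him : ∀ x, (∑' y, Kf T0 κ s x y * (ψ y).im) + V x * (ψ x).im =
      E.im * (ψ x).re + E.re * (ψ x).im := by
    intro x
    have h1 := he x
    rw [(hs x).tsum_eq] at h1
    have h2 := congrArg Complex.im h1
    have h3 : (∑' y, Kf T0 κ s x y * (ψ y).im) + V x * (ψ x).im =
        E.re * (ψ x).im + E.im * (ψ x).re := by simpa using h2
    rw [h3]; ring
  by_cases hη : E.im = 0
  · have h1 := hreal E.re (fun y => (ψ y).re) ⟨hu, fun x => by rw [hre x, hη]; ring⟩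
    have h2 := hreal E.re (fun y => (ψ y).im) ⟨hv, fun x => by rw [him x, hη]; ring⟩
    funext x
    apply Complex.ext
    · exact congrFun h1 x
    · exact congrFun h2 x
  · funext x
    have h3 := nonreal h s hc V E.re E.im hη (fun y => (ψ y).re) (fun y => (ψ y).im) hu hv hre him x
    have h4 : (ψ x).re = 0 := by nlinarith [sq_nonneg (ψ x).re, sq_nonneg (ψ x).im]
    have h5 : (ψ x).im = 0 := by nlinarith [sq_nonneg (ψ x).re, sq_nonneg (ψ x).im]
    exact Complex.ext h4 h5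

end nonreal

/-! ### Power-law profiles -/

/-- adapted from `Pool.Agent.TH73.J238.summable_int` -/
theorem summable_norm (d : ℕ) (s : ℝ) (hs : (d : ℝ) < s) :
    Summable fun v : Fin d → ℤ => ‖v‖ ^ (-s) := by
  set b := Pi.basisFun ℝ (Fin d) with hb
  set L : Submodule ℤ (Fin d → ℝ) := Submodule.span ℤ (Set.range b) with hL
  have hrank : Module.finrank ℤ L = d := by
    rw [ZLattice.rank ℝ L]; simp
  have h1 : Summable fun z : L => ‖z‖ ^ (-s) :=
    ZLattice.summable_norm_rpow L (-s) (by rw [hrank]; linarith)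
  have hmem : ∀ v : Fin d → ℤ, (fun i => (v i : ℝ)) ∈ L := by
    intro v
    have : (fun i => (v i : ℝ)) = ∑ i, v i • b i := by
      ext j
      simp [hb, Pi.basisFun_apply, Finset.sum_apply, Pi.single_apply]
    rw [this]
    exact Submodule.sum_mem _ fun i _ => Submodule.smul_mem _ _ (Submodule.subset_span ⟨i, rfl⟩)
  have h2 := h1.comp_injective (i := fun v : Fin d → ℤ => (⟨fun i => (v i : ℝ), hmem v⟩ : L)) (by
    intro v w h
    have h3 := congrArg Subtype.val h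
    ext i
    have := congrFun h3 i
    simpa using this)
  refine h2.congr fun v => ?_
  have h4 : ‖(fun i => (v i : ℝ))‖ = ‖v‖ := by
    apply le_antisymm
    · refine (pi_norm_le_iff_of_nonneg (norm_nonneg _)).mpr fun i => ?_
      have := norm_le_pi_norm v i
      rwa [← Int.norm_cast_real] at this
    · refine (pi_norm_le_iff_of_nonneg (norm_nonneg _)).mpr fun i => ?_
      have := norm_le_pi_norm (fun i => (v i : ℝ)) i
      rwa [Int.norm_cast_real] at this
  simp only [Function.comp]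
  rw [← h4]
  rfl

/-- profiles comparable to a power of the distance -/
structure Pow (κ : (Fin d → ℤ) → ℝ) (α c C : ℝ) : Prop where
  zero : κ 0 = 0
  even : ∀ z, κ (-z) = κ z
  lower : ∀ z, z ≠ 0 → c * ‖z‖ ^ (-α) ≤ |κ z|
  upper : ∀ z, z ≠ 0 → |κ z| ≤ C * ‖z‖ ^ (-α)

theorem pow_sq_le {κ : (Fin d → ℤ) → ℝ} {α c C : ℝ} (h : Pow κ α c C) {θ : ℝ} (hθ : 0 < 2 * α - θ)
    (z : Fin d → ℤ) : κ z ^ 2 * ‖z‖ ^ θ ≤ C ^ 2 * ‖z‖ ^ (-(2 * α - θ)) := by
  by_cases hz : z = 0
  · rw [hz, h.zero, norm_zero, Real.zero_rpow (by linarith : -(2 * α - θ) ≠ 0)]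
    simp
  · have hz' : 0 < ‖z‖ := norm_pos_iff.2 hz
    have h1 := h.upper z hz
    have h2 : κ z ^ 2 ≤ (C * ‖z‖ ^ (-α)) ^ 2 := by
      rw [← sq_abs]
      exact pow_le_pow_left₀ (abs_nonneg _) h1 2
    have h3 : (‖z‖ ^ (-α)) ^ 2 * ‖z‖ ^ θ = ‖z‖ ^ (-(2 * α - θ)) := by
      rw [← Real.rpow_natCast, ← Real.rpow_mul hz'.le, ← Real.rpow_add hz']
      congr 1
      push_cast
      ring
    calc κ z ^ 2 * ‖z‖ ^ θ ≤ (C * ‖z‖ ^ (-α)) ^ 2 * ‖z‖ ^ θ :=
          mul_le_mul_of_nonneg_right h2 (by positivity)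
      _ = C ^ 2 * ((‖z‖ ^ (-α)) ^ 2 * ‖z‖ ^ θ) := by ring
      _ = _ := by rw [h3]

theorem pow_summable {κ : (Fin d → ℤ) → ℝ} {α c C : ℝ} (h : Pow κ α c C) {θ : ℝ}
    (hθ : (d : ℝ) < 2 * α - θ) : Summable fun z => κ z ^ 2 * ‖z‖ ^ θ := by
  have hd : (0 : ℝ) ≤ d := Nat.cast_nonneg d
  refine Summable.of_nonneg_of_le (fun z => by positivity)
    (fun z => pow_sq_le h (by linarith) z) ?_
  exact (summable_norm d _ hθ).mul_left _

theorem pow_big (hd : 1 ≤ d) {κ : (Fin d → ℤ) → ℝ} {α c C : ℝ} (h : Pow κ α c C) (hc : 0 < c)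
    (hα0 : 0 < α) (hα : α < d) : Big κ ((C / c) * 2 ^ α) := by
  intro A
  have hlim : Tendsto (fun R : ℕ => c * 2 ^ (-α) * (R : ℝ) ^ ((d : ℝ) - α)) atTop atTop :=
    ((tendsto_rpow_atTop (by linarith)).comp tendsto_natCast_atTop_atTop).const_mul_atTop
      (by positivity)
  obtain ⟨R0, hR0⟩ := eventually_atTop.1 (hlim.eventually_ge_atTop A)
  obtain ⟨R1, hR1⟩ := exists_nat_ge A
  obtain ⟨R, hR⟩ : ∃ R : ℕ, R = max (max R0 R1) 1 := ⟨_, rfl⟩
  have hRpos : 1 ≤ R := hR ▸ le_max_right _ _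
  have hRR0 : R0 ≤ R := hR ▸ (le_max_left _ _).trans (le_max_left _ _)
  have hRR1 : R1 ≤ R := hR ▸ (le_max_right _ _).trans (le_max_left _ _)
  have hR' : (0 : ℝ) < R := by exact_mod_cast hRpos
  have : Nonempty (Fin d) := ⟨⟨0, hd⟩⟩
  obtain ⟨i0⟩ := this
  have hcard : (Finset.Icc (fun _ : Fin d => (R : ℤ)) (fun _ => 2 * (R : ℤ) - 1)).card = R ^ d := by
    rw [Pi.card_Icc]
    simp only [Int.card_Icc]
    rw [Finset.prod_const, Finset.card_univ, Fintype.card_fin]
    congr 1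
    omega
  have hlo : ∀ z ∈ Finset.Icc (fun _ : Fin d => (R : ℤ)) (fun _ => 2 * (R : ℤ) - 1),
      (R : ℝ) ≤ ‖z‖ := by
    intro z hz
    have h1 := (Finset.mem_Icc.1 hz).1 i0
    have h2 := norm_le_pi_norm z i0
    rw [Int.norm_eq_abs] at h2
    have h3 : (R : ℝ) ≤ (z i0 : ℝ) := by exact_mod_cast h1
    exact h3.trans ((le_abs_self _).trans h2)
  have hhi : ∀ z ∈ Finset.Icc (fun _ : Fin d => (R : ℤ)) (fun _ => 2 * (R : ℤ) - 1),
      ‖z‖ ≤ 2 * R := by
    intro z hz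
    rw [pi_norm_le_iff_of_nonneg (by positivity)]
    intro i
    have h1 := (Finset.mem_Icc.1 hz).1 i
    have h2 := (Finset.mem_Icc.1 hz).2 i
    rw [Int.norm_eq_abs, abs_le]
    have h3 : (R : ℝ) ≤ (z i : ℝ) := by exact_mod_cast h1
    have h4 : (z i : ℝ) ≤ ((2 * (R : ℤ) - 1 : ℤ) : ℝ) := by exact_mod_cast h2
    push_cast at h4
    constructor <;> linarith
  refine ⟨Finset.Icc (fun _ : Fin d => (R : ℤ)) (fun _ => 2 * (R : ℤ) - 1),
    c * (2 * (R : ℝ)) ^ (-α), by positivity, ?_, ?_, ?_, ?_, ?_⟩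
  · intro h0
    have := hlo 0 h0
    rw [norm_zero] at this
    linarith
  · rw [← Finset.card_pos, hcard]
    positivity
  · intro z hz
    have h1 := hlo z hz
    have h2 := hhi z hz
    have hz' : 0 < ‖z‖ := lt_of_lt_of_le hR' h1
    have hz0 : z ≠ 0 := norm_pos_iff.1 hz'
    refine ⟨?_, ?_⟩
    · refine le_trans (mul_le_mul_of_nonneg_left ?_ hc.le) (h.lower z hz0)
      exact Real.rpow_le_rpow_of_nonpos hz' h2 (by linarith)
    · have hC : 0 ≤ C := by
        have h3 := (h.lower z hz0).trans (h.upper z hz0)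
        have h4 : 0 < ‖z‖ ^ (-α) := by positivity
        have h5 : c ≤ C := le_of_mul_le_mul_right h3 h4
        linarith
      refine (h.upper z hz0).trans ?_
      have h6 : ‖z‖ ^ (-α) ≤ (R : ℝ) ^ (-α) := Real.rpow_le_rpow_of_nonpos hR' h1 (by linarith)
      have h7 : C / c * 2 ^ α * (c * (2 * (R : ℝ)) ^ (-α)) = C * (R : ℝ) ^ (-α) := by
        rw [Real.mul_rpow (by norm_num) hR'.le, Real.rpow_neg (by norm_num : (0:ℝ) ≤ 2)]
        have : (0 : ℝ) < 2 ^ α := by positivity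
        field_simp
      rw [h7]
      exact mul_le_mul_of_nonneg_left h6 hC
  · rw [hcard]
    have h1 : R ≤ R ^ d := Nat.le_self_pow (by omega) R
    have h2 : (R : ℝ) ≤ ((R ^ d : ℕ) : ℝ) := by exact_mod_cast h1
    have h3 : (R1 : ℝ) ≤ R := by exact_mod_cast hRR1
    linarith
  · rw [hcard]
    refine (hR0 R hRR0).trans (le_of_eq ?_)
    rw [Real.mul_rpow (by norm_num) hR'.le, Real.rpow_sub hR', Real.rpow_natCast,
      Real.rpow_neg hR'.le]
    push_cast
    ring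

/-! ### The theorem -/

/-- scaling of the potential -/
theorem PV_map (σ : ℝ) : (Measure.infinitePi fun _ : (Fin d → ℤ) => gaussianReal 0 1).map
    (fun ξ x => σ * ξ x) = PV d ⟨σ ^ 2, sq_nonneg σ⟩ := by
  have h1 := Measure.infinitePi_map_pi (μ := fun _ : (Fin d → ℤ) => gaussianReal 0 1)
    (f := fun _ t => σ * t) (fun _ => by fun_prop)
  rw [h1]
  unfold PV
  congr 1
  funext x
  rw [gaussianReal_map_const_mul]
  simp only [mul_zero, mul_one]
  rfl

theorem one_le_norm' {z : Fin d → ℤ} (hz : z ≠ 0) : 1 ≤ ‖z‖ := by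
  obtain ⟨i, hi⟩ := Function.ne_iff.mp hz
  have h1 : ‖z i‖ ≤ ‖z‖ := norm_le_pi_norm z i
  have h2 : (1 : ℝ) ≤ ‖z i‖ := by
    rw [Int.norm_eq_abs]
    exact_mod_cast Int.one_le_abs (by simpa using hi)
  exact h2.trans h1

theorem mainGen {T0 : (Fin d → ℤ) → (Fin d → ℤ) → ℝ} {κ : (Fin d → ℤ) → ℝ}
    {ρ0 b : ℝ} (hT1 : ∀ y w, T0 y w = T0 w y) (hT2 : ∀ y, T0 y y = 0)
    (hT3 : ∀ y w, ρ0 < ‖y - w‖ → T0 y w = 0) (hT4 : ∀ y w, |T0 y w| ≤ b)
    (hκ0 : κ 0 = 0) (hκ1 : ∀ z, κ (-z) = κ z) {B θ' : ℝ} (hB : Big κ B) (hθ' : 0 < θ')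
    (hsum' : Summable fun z => κ z ^ 2 * ‖z‖ ^ θ') {σ : ℝ} (hσ : σ ≠ 0) :
    ∀ᵐ p ∂((Measure.infinitePi fun _ : (Fin d → ℤ) => gaussianReal 0 1).prod (Ps d)),
      ∀ (E : ℂ) (ψ : (Fin d → ℤ) → ℂ), (Summable fun x => ‖ψ x‖ ^ 2) →
        (∀ x, (∑' y, ((Kf T0 κ p.2 x y : ℝ) : ℂ) * ψ y) + ((σ * p.1 x : ℝ) : ℂ) * ψ x = E * ψ x) →
        ψ = 0 := by
  classical
  obtain ⟨θ, hθ⟩ : ∃ θ, θ = min 2 θ' := ⟨_, rfl⟩
  have hθ0 : 0 < θ := by rw [hθ]; exact lt_min (by norm_num) hθ'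
  have hθ2 : θ ≤ 2 := hθ ▸ min_le_left _ _
  have hθ3 : θ ≤ θ' := hθ ▸ min_le_right _ _
  have hmono : ∀ θ'' : ℝ, θ'' ≤ θ' → Summable fun z => κ z ^ 2 * ‖z‖ ^ θ'' := by
    intro θ'' h3
    refine Summable.of_nonneg_of_le (fun z => by positivity) (fun z => ?_) hsum'
    by_cases hz : z = 0
    · rw [hz, hκ0]; simp
    · refine mul_le_mul_of_nonneg_left ?_ (sq_nonneg _)
      exact Real.rpow_le_rpow_of_exponent_le (one_le_norm' hz) h3
  have hsum := hmono θ hθ3
  have hb : 0 ≤ b := (abs_nonneg _).trans (hT4 0 0)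
  obtain ⟨m, hm⟩ := exists_nat_ge ρ0
  have hA : Adm T0 κ ρ0 (((2 * m + 1) ^ d : ℕ) * b) := by
    refine ⟨hT1, hT2, hT3, ?_, hκ0, hκ1, ?_⟩
    · intro y F
      have h1 : ∑ w ∈ F, |T0 y w| ≤
          ∑ w ∈ Finset.Icc (fun i => y i - (m : ℤ)) (fun i => y i + (m : ℤ)), |T0 y w| := by
        rw [← Finset.sum_filter_add_sum_filter_not F
          (fun w => w ∈ Finset.Icc (fun i => y i - (m : ℤ)) (fun i => y i + (m : ℤ)))]
        have h2 : ∑ w ∈ F.filter (fun w => ¬ w ∈ Finset.Icc (fun i => y i - (m : ℤ))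
            (fun i => y i + (m : ℤ))), |T0 y w| = 0 := by
          refine Finset.sum_eq_zero fun w hw => ?_
          rw [Finset.mem_filter] at hw
          rw [hT3 y w, abs_zero]
          by_contra hcon
          rw [not_lt] at hcon
          apply hw.2
          have h3 := (pi_norm_le_iff_of_nonneg (by
            exact Nat.cast_nonneg m : (0 : ℝ) ≤ (m : ℝ))).1 (hcon.trans hm)
          rw [Finset.mem_Icc]
          constructor <;> intro i
          · have h4 := h3 i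
            rw [Int.norm_eq_abs, Pi.sub_apply] at h4
            have h5 : y i - w i ≤ (m : ℤ) := by exact_mod_cast (abs_le.1 h4).2
            show y i - (m : ℤ) ≤ w i
            linarith
          · have h4 := h3 i
            rw [Int.norm_eq_abs, Pi.sub_apply] at h4
            have h5 : -(m : ℤ) ≤ y i - w i := by exact_mod_cast (abs_le.1 h4).1
            show w i ≤ y i + (m : ℤ)
            linarith
        rw [h2, add_zero]
        exact Finset.sum_le_sum_of_subset_of_nonneg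
          (fun w hw => (Finset.mem_filter.1 hw).2) (fun w _ _ => abs_nonneg _)
      refine h1.trans ((Finset.sum_le_sum fun w _ => hT4 y w).trans ?_)
      rw [Finset.sum_const, nsmul_eq_mul]
      refine mul_le_mul_of_nonneg_right ?_ hb
      have h6 : (Finset.Icc (fun i => y i - (m : ℤ)) (fun i => y i + (m : ℤ))).card =
          (2 * m + 1) ^ d := by
        rw [Pi.card_Icc]
        have h7 : ∀ i, (Finset.Icc (y i - (m : ℤ)) (y i + (m : ℤ))).card = 2 * m + 1 := by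
          intro i
          rw [Int.card_Icc]
          omega
        simp only [h7]
        rw [Finset.prod_const, Finset.card_univ, Fintype.card_fin]
      rw [h6]
    · have := hmono 0 hθ'.le
      simpa using this
  have hcut := cutOK_ae hA hθ0 hθ2 hsum
  have hv : (⟨σ ^ 2, sq_nonneg σ⟩ : NNReal) ≠ 0 := by
    intro h0
    have h00 : σ ^ 2 = 0 := congrArg NNReal.toReal h0
    exact hσ (by simpa using h00)
  have h1 := noEig hA hB ⟨σ ^ 2, sq_nonneg σ⟩ hv hcut
  rw [← PV_map σ] at h1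
  have hmap : (Measure.map (fun ξ x => σ * ξ x)
      (Measure.infinitePi fun _ : (Fin d → ℤ) => gaussianReal 0 1)).prod (Ps d) =
      Measure.map (Prod.map (fun ξ x => σ * ξ x) id)
        ((Measure.infinitePi fun _ : (Fin d → ℤ) => gaussianReal 0 1).prod (Ps d)) := by
    rw [← Measure.map_prod_map _ _ (by fun_prop) measurable_id, Measure.map_id]
  rw [hmap] at h1
  have h2 := ae_of_ae_map (by
    apply Measurable.aemeasurable
    exact Measurable.prodMap (by fun_prop) measurable_id) h1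
  have h3 : ∀ᵐ p ∂((Measure.infinitePi fun _ : (Fin d → ℤ) => gaussianReal 0 1).prod (Ps d)),
      CutOK T0 κ p.2 := by
    exact Measure.quasiMeasurePreserving_snd.ae hcut
  filter_upwards [h2, h3] with p hp1 hp2 E ψ hψ he
  exact complexify hA p.2 hp2 (fun x => σ * p.1 x) hp1 E ψ hψ he

end Pool.Agent.U319.PLE
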